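import Pool.Agent.Lib_helper24.MS.Frob1

/-!
Unramified elements of the algebraic closure of `ℚ_p`: the congruence `x ^ (p ^ f) ≡ x`.
-/

set_option autoImplicit false

namespace CP

open Finset IntermediateField MS

variable {p : ℕ} [hp : Fact p.Prime]

/-- all the conjugates of the integral element `θ` are incongruent -/
def Sep (θ : PadicAlgCl p) : Prop := ‖θ‖ ≤ 1 ∧ ∀ g : Gp p, g θ ≠ θ → ‖g θ - θ‖ = 1

/-- the integral elements are periodic under `x ↦ x ^ p` modulo `p` -/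
def UR (F : IntermediateField ℚ_[p] (PadicAlgCl p)) : Prop :=
  ∀ x ∈ F, ‖x‖ ≤ 1 → ∃ f : ℕ, 0 < f ∧ ‖x ^ p ^ f - x‖ ≤ (p : ℝ)⁻¹

theorem UR.val {F : IntermediateField ℚ_[p] (PadicAlgCl p)} (hF : UR F) {x : PadicAlgCl p}
    (hx : x ∈ F) (h1 : ‖x‖ < 1) : ‖x‖ ≤ (p : ℝ)⁻¹ := by
  obtain ⟨f, hf, h⟩ := hF x hx h1.le
  by_contra hcon
  rw [not_le] at hcon
  have hx0 : 0 < ‖x‖ := pinv_pos.trans hcon
  have h2 : ‖x ^ p ^ f‖ < ‖x‖ := by
    rw [norm_pow]
    exact pow_lt_self_of_lt_one₀ hx0 h1 (Nat.one_lt_pow hf.ne' hp.out.one_lt)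
  have h3 : ‖x‖ ≤ max ‖x ^ p ^ f‖ ‖x ^ p ^ f - x‖ := by
    have e : x = x ^ p ^ f - (x ^ p ^ f - x) := by ring
    conv_lhs => rw [e]
    exact norm_sub_le_max' _ _
  rcases le_max_iff.1 h3 with h4 | h4
  · linarith
  · linarith

/-- the values are powers of `p` -/
theorem UR.zpow {F : IntermediateField ℚ_[p] (PadicAlgCl p)} (hF : UR F) {x : PadicAlgCl p}
    (hx : x ∈ F) (h0 : x ≠ 0) : ∃ n : ℤ, ‖x‖ = (p : ℝ) ^ n := by
  have hp1 : (1 : ℝ) < p := by exact_mod_cast hp.out.one_lt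
  have hp0 : (0 : ℝ) < p := by linarith
  obtain ⟨n, hn1, hn2⟩ := exists_mem_Ioc_zpow (norm_pos_iff.2 h0) hp1
  refine ⟨n + 1, ?_⟩
  set y := x * (p : PadicAlgCl p) ^ (n + 1) with hy
  have hyF : y ∈ F := mul_mem hx (zpow_mem (_root_.natCast_mem F p) _)
  have hyn : ‖y‖ = ‖x‖ * (p : ℝ) ^ (-(n + 1)) := by
    rw [hy, norm_mul, norm_zpow, norm_p, inv_zpow, ← _root_.zpow_neg]
  have hy1 : ‖y‖ ≤ 1 := by
    rw [hyn, _root_.zpow_neg, ← div_eq_mul_inv, div_le_one (by positivity)]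
    exact hn2
  have hy2 : (p : ℝ)⁻¹ < ‖y‖ := by
    rw [hyn, _root_.zpow_neg, ← div_eq_mul_inv, lt_div_iff₀ (by positivity)]
    calc (p : ℝ)⁻¹ * (p : ℝ) ^ (n + 1) = (p : ℝ) ^ n := by
          rw [zpow_add₀ hp0.ne', zpow_one]
          field_simp
      _ < ‖x‖ := hn1
  have hy3 : ‖y‖ = 1 := by
    rcases lt_or_eq_of_le hy1 with h | h
    · exact absurd (hF.val hyF h) (not_le.2 hy2)
    · exact h
  rw [hyn, _root_.zpow_neg, ← div_eq_mul_inv, div_eq_one_iff_eq (by positivity)] at hy3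
  exact hy3

theorem iter_period {x : PadicAlgCl p} (hx : ‖x‖ ≤ 1) {f : ℕ}
    (h : ‖x ^ p ^ f - x‖ ≤ (p : ℝ)⁻¹) (k : ℕ) : ‖x ^ p ^ (f * k) - x‖ ≤ (p : ℝ)⁻¹ := by
  induction k with
  | zero =>
    rw [mul_zero, pow_zero, pow_one, sub_self, norm_zero]
    exact pinv_pos.le
  | succ k ih =>
    have h1 : ‖(x ^ p ^ f) ^ p ^ (f * k) - x ^ p ^ (f * k)‖ ≤ (p : ℝ)⁻¹ :=
      (cong_pow (by rw [norm_pow]; exact pow_le_one₀ (norm_nonneg _) hx) hx _).trans h
    rw [← pow_mul, ← pow_add] at h1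
    have e : f + f * k = f * (k + 1) := by ring
    rw [e] at h1
    exact cong_trans h1 ih

/-- a common period -/
theorem UR.common {F : IntermediateField ℚ_[p] (PadicAlgCl p)} (hF : UR F)
    (s : Finset (PadicAlgCl p)) (hs : ∀ x ∈ s, x ∈ F ∧ ‖x‖ ≤ 1) :
    ∃ f : ℕ, 0 < f ∧ ∀ x ∈ s, ‖x ^ p ^ f - x‖ ≤ (p : ℝ)⁻¹ := by
  classical
  induction s using Finset.induction_on with
  | empty => exact ⟨1, one_pos, fun x hx => absurd hx (by simp)⟩
  | insert a s ha ih =>
    obtain ⟨f, hf, h⟩ := ih fun x hx => hs x (mem_insert_of_mem hx)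
    obtain ⟨f', hf', h'⟩ := hF a (hs a (mem_insert_self _ _)).1 (hs a (mem_insert_self _ _)).2
    refine ⟨f * f', Nat.mul_pos hf hf', fun x hx => ?_⟩
    have hx1 := (hs x hx).2
    rcases mem_insert.1 hx with rfl | hx
    · rw [mul_comm]
      exact iter_period hx1 h' f
    · exact iter_period hx1 (h x hx) f'

theorem Sep.sub {θ : PadicAlgCl p} (hθ : Sep θ) {g g' : Gp p} (h : g θ ≠ g' θ) :
    ‖g θ - g' θ‖ = 1 := by
  have h1 : (g⁻¹ * g') θ ≠ θ := by
    intro h2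
    apply h
    have := congrArg g h2
    rw [← AlgEquiv.mul_apply, mul_inv_cancel_left] at this
    exact this.symm
  have h2 := hθ.2 _ h1
  rw [← norm_gal g, map_sub, ← AlgEquiv.mul_apply, mul_inv_cancel_left, norm_sub_rev] at h2
  exact h2

/-- bounded coefficients in an unramified extension -/
theorem sep_coeff {F : IntermediateField ℚ_[p] (PadicAlgCl p)} {ω : PadicAlgCl p} (hω : Sep ω)
    {y : PadicAlgCl p} (hy : y ∈ adj F ω) :
    ∃ P : Polynomial F, y = ∑ i ∈ range (P.natDegree + 1), (P.coeff i : PadicAlgCl p) * ω ^ i ∧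
      ∀ i, ‖(P.coeff i : PadicAlgCl p)‖ ≤ ‖y‖ := by
  classical
  obtain ⟨P, hPdeg, hPy⟩ := mem_adj_poly hy
  have hint : IsIntegral F ω := Algebra.IsIntegral.isIntegral ω
  set f := minpoly F ω with hf
  set R : Finset (PadicAlgCl p) := (f.aroots (PadicAlgCl p)).toFinset with hR
  have hsep : f.Separable := (minpoly.irreducible hint).separable
  have hRcard : R.card = f.natDegree := by
    rw [hR, Multiset.toFinset_card_of_nodup]
    · rw [Polynomial.aroots_def, ← Polynomial.natDegree_map (algebraMap F (PadicAlgCl p))]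
      exact (Polynomial.splits_iff_card_roots.1 (IsAlgClosed.splits _))
    · exact Polynomial.nodup_aroots_iff_of_splits (minpoly.ne_zero hint)
        (IsAlgClosed.splits _) |>.2 hsep
  have hroot : ∀ r ∈ R, Polynomial.aeval r f = 0 := by
    intro r hr
    rw [hR, Multiset.mem_toFinset, Polynomial.mem_aroots] at hr
    exact hr.2
  have hgal : ∀ r ∈ R, ∃ g : Gp p, (∀ z ∈ F, g z = z) ∧ g ω = r := by
    intro r hr
    obtain ⟨σ, hσ⟩ := minpoly.exists_algEquiv_of_root' (K := F) (L := PadicAlgCl p)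
      hint.isAlgebraic (hroot r hr)
    refine ⟨σ.restrictScalars ℚ_[p], ?_, hσ⟩
    intro z hz
    exact σ.commutes ⟨z, hz⟩
  have hrn : ∀ r ∈ R, ‖r‖ ≤ 1 := by
    intro r hr
    obtain ⟨g, -, hgr⟩ := hgal r hr
    rw [← hgr, norm_gal]
    exact hω.1
  have hrs : ∀ r ∈ R, ∀ s ∈ R, r ≠ s → ‖r - s‖ = 1 := by
    intro r hr s hs h
    obtain ⟨g, -, hgr⟩ := hgal r hr
    obtain ⟨g', -, hgs⟩ := hgal s hs
    rw [← hgr, ← hgs] at h ⊢
    exact hω.sub h
  set Q := P.map (algebraMap F (PadicAlgCl p)) with hQ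
  have hQdeg : Q.degree < R.card := by
    rw [hRcard]
    refine lt_of_le_of_lt Polynomial.degree_map_le ?_
    exact lt_of_le_of_lt Polynomial.degree_le_natDegree (by exact_mod_cast hPdeg)
  have hQr : ∀ r ∈ R, ‖Q.eval r‖ = ‖y‖ := by
    intro r hr
    obtain ⟨g, hgF, hgr⟩ := hgal r hr
    have e1 : Q.eval r = g y := by
      rw [hQ, Polynomial.eval_map, ← hPy, Polynomial.aeval_def, ← hgr, Polynomial.eval₂_eq_sum,
        Polynomial.eval₂_eq_sum, Polynomial.sum, Polynomial.sum, map_sum]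
      apply Finset.sum_congr rfl
      intro i _
      rw [map_mul, map_pow]
      congr 1
      exact (hgF _ (P.coeff i).2).symm
    rw [e1, norm_gal]
  have hlag := Lagrange.eq_interpolate (s := R) (v := id) (f := Q) (Set.injOn_id _) hQdeg
  have hPB : PB Q ‖y‖ := by
    rw [hlag, Lagrange.interpolate_apply]
    apply PB.sum _ _ (norm_nonneg _)
    intro r hr
    have h1 : PB (Polynomial.C (Q.eval (id r))) ‖y‖ := by
      intro i
      rw [Polynomial.coeff_C]
      split_ifs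
      · exact (hQr r hr).le
      · rw [norm_zero]; exact norm_nonneg _
    have h2 : PB (Lagrange.basis R id r) 1 := by
      unfold Lagrange.basis
      apply PB.prod
      intro s hs
      rw [Finset.mem_erase] at hs
      unfold Lagrange.basisDivisor
      have h3 : ‖(id r - id s)⁻¹‖ = 1 := by
        rw [norm_inv, id, id, hrs r hr s hs.2 hs.1.symm, inv_one]
      intro i
      rw [Polynomial.coeff_C_mul, norm_mul, h3, one_mul, Polynomial.coeff_sub,
        Polynomial.coeff_X, Polynomial.coeff_C]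
      refine (norm_sub_le_max' _ _).trans (max_le ?_ ?_)
      · split_ifs <;> simp
      · split_ifs
        · rw [id]; exact hrn s hs.2
        · simp
    have h4 := h1.mul h2
    rwa [mul_one] at h4
  refine ⟨P, ?_, ?_⟩
  · rw [← hPy, Polynomial.aeval_eq_sum_range]
    apply Finset.sum_congr rfl
    intro i _
    rw [Algebra.smul_def]
    rfl
  · intro i
    have := hPB i
    rwa [hQ, Polynomial.coeff_map] at this

/-- the local Frobenius -/
theorem sep_frob {F : IntermediateField ℚ_[p] (PadicAlgCl p)} (hF : UR F) {θ : PadicAlgCl p}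
    (hθ : Sep θ) : ∃ f : ℕ, 0 < f ∧ ‖θ ^ p ^ f - θ‖ ≤ (p : ℝ)⁻¹ := by
  classical
  have hint : IsIntegral F θ := Algebra.IsIntegral.isIntegral θ
  set f := minpoly F θ with hf
  have hmon : f.Monic := minpoly.monic hint
  set R : Finset (PadicAlgCl p) := (f.aroots (PadicAlgCl p)).toFinset with hR
  have hsep : f.Separable := (minpoly.irreducible hint).separable
  have hnodup : (f.aroots (PadicAlgCl p)).Nodup :=
    Polynomial.nodup_aroots_iff_of_splits (minpoly.ne_zero hint)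
      (IsAlgClosed.splits _) |>.2 hsep
  have hroot : ∀ r ∈ R, Polynomial.aeval r f = 0 := by
    intro r hr
    rw [hR, Multiset.mem_toFinset, Polynomial.mem_aroots] at hr
    exact hr.2
  have hroot' : ∀ r, Polynomial.aeval r f = 0 → r ∈ R := by
    intro r hr
    rw [hR, Multiset.mem_toFinset, Polynomial.mem_aroots]
    exact ⟨minpoly.ne_zero hint, hr⟩
  have hgal : ∀ r ∈ R, ∃ g : Gp p, (∀ z ∈ F, g z = z) ∧ g θ = r := by
    intro r hr
    obtain ⟨σ, hσ⟩ := minpoly.exists_algEquiv_of_root' (K := F) (L := PadicAlgCl p)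
      hint.isAlgebraic (hroot r hr)
    refine ⟨σ.restrictScalars ℚ_[p], ?_, hσ⟩
    intro z hz
    exact σ.commutes ⟨z, hz⟩
  have hgR : ∀ g : Gp p, (∀ z ∈ F, g z = z) → g θ ∈ R := by
    intro g hg
    apply hroot'
    have h1 : g (Polynomial.aeval θ f) = 0 := by
      rw [hf, minpoly.aeval, map_zero]
    rw [Polynomial.aeval_eq_sum_range, map_sum] at h1
    rw [Polynomial.aeval_eq_sum_range, ← h1]
    refine Finset.sum_congr rfl fun i _ => ?_
    rw [Algebra.smul_def, Algebra.smul_def, map_mul, map_pow]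
    congr 1
    exact (hg _ (f.coeff i).2).symm
  have hrn : ∀ r ∈ R, ‖r‖ ≤ 1 := by
    intro r hr
    obtain ⟨g, -, hgr⟩ := hgal r hr
    rw [← hgr, norm_gal]
    exact hθ.1
  have hrs : ∀ r ∈ R, ∀ s ∈ R, r ≠ s → ‖r - s‖ = 1 := by
    intro r hr s hs h
    obtain ⟨g, -, hgr⟩ := hgal r hr
    obtain ⟨g', -, hgs⟩ := hgal s hs
    rw [← hgr, ← hgs] at h ⊢
    exact hθ.sub h
  set G := f.map (algebraMap F (PadicAlgCl p)) with hG
  have hGprod : G = ∏ r ∈ R, (Polynomial.X - Polynomial.C r) := by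
    have h1 := (IsAlgClosed.splits G).eq_prod_roots
    rw [(hmon.map _).leadingCoeff, Polynomial.C_1, one_mul] at h1
    rw [h1, Finset.prod_eq_multiset_prod, hR, Multiset.toFinset_val,
      Multiset.dedup_eq_self.mpr hnodup]
  have hcoef : PB G 1 := by
    rw [hGprod]
    apply PB.prod
    intro r hr i
    rw [Polynomial.coeff_sub, Polynomial.coeff_X, Polynomial.coeff_C]
    refine (norm_sub_le_max' _ _).trans (max_le ?_ ?_)
    · split_ifs <;> simp
    · split_ifs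
      · exact hrn r hr
      · simp
  have hcF : ∀ i, G.coeff i ∈ F := by
    intro i
    rw [hG, Polynomial.coeff_map]
    exact (f.coeff i).2
  obtain ⟨k, hk, hper⟩ := hF.common ((range (G.natDegree + 1)).image G.coeff) (by
    intro x hx
    obtain ⟨i, -, rfl⟩ := Finset.mem_image.1 hx
    exact ⟨hcF i, hcoef i⟩)
  have hper' : ∀ i ∈ range (G.natDegree + 1), ‖G.coeff i ^ p ^ k - G.coeff i‖ ≤ (p : ℝ)⁻¹ :=
    fun i hi => hper _ (Finset.mem_image_of_mem _ hi)
  set q := p ^ k with hq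
  have hθi : ∀ i : ℕ, ‖θ ^ i‖ ≤ 1 := fun i => by
    rw [norm_pow]; exact pow_le_one₀ (norm_nonneg _) hθ.1
  -- `G (θ ^ q)` is small
  have h0 : G.eval θ = 0 := by
    rw [hG, Polynomial.eval_map]
    exact minpoly.aeval F θ
  rw [Polynomial.eval_eq_sum_range] at h0
  have h1 := sum_frob_iter (range (G.natDegree + 1)) (fun i => G.coeff i * θ ^ i) (fun i _ => by
    rw [norm_mul]; exact mul_le_one₀ (hcoef i) (norm_nonneg _) (hθi i)) k
  rw [h0, ← hq, zero_pow (pow_ne_zero _ hp.out.ne_zero), zero_sub, norm_neg] at h1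
  have h2 : ‖∑ i ∈ range (G.natDegree + 1), ((G.coeff i * θ ^ i) ^ q -
      G.coeff i * (θ ^ q) ^ i)‖ ≤ (p : ℝ)⁻¹ := by
    apply norm_sum_le' _ _ pinv_pos.le
    intro i hi
    have e1 : (G.coeff i * θ ^ i) ^ q - G.coeff i * (θ ^ q) ^ i =
        ((G.coeff i) ^ q - G.coeff i) * (θ ^ q) ^ i := by
      rw [mul_pow, ← pow_mul, ← pow_mul, mul_comm i q]
      ring
    rw [e1, norm_mul, ← pow_mul]
    calc _ ≤ (p : ℝ)⁻¹ * 1 := mul_le_mul (hper' i hi) (hθi _) (norm_nonneg _) pinv_pos.le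
      _ = _ := mul_one _
  rw [Finset.sum_sub_distrib] at h2
  have h3 : G.eval (θ ^ q) = ∑ i ∈ range (G.natDegree + 1), G.coeff i * (θ ^ q) ^ i :=
    Polynomial.eval_eq_sum_range _
  rw [← h3] at h2
  have h4 : ‖G.eval (θ ^ q)‖ ≤ (p : ℝ)⁻¹ := by
    have e4 : G.eval (θ ^ q) = ∑ i ∈ range (G.natDegree + 1), (G.coeff i * θ ^ i) ^ q -
        (∑ i ∈ range (G.natDegree + 1), (G.coeff i * θ ^ i) ^ q - G.eval (θ ^ q)) := by
      ring
    rw [e4]
    exact (norm_sub_le_max' _ _).trans (max_le h1 h2)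
  -- the nearest conjugate
  have hGe : G.eval (θ ^ q) = ∏ r ∈ R, (θ ^ q - r) := by
    rw [hGprod, Polynomial.eval_prod]
    exact Finset.prod_congr rfl fun r _ => by
      rw [Polynomial.eval_sub, Polynomial.eval_X, Polynomial.eval_C]
  have hle1 : ∀ r ∈ R, ‖θ ^ q - r‖ ≤ 1 := fun r hr =>
    (norm_sub_le_max' _ _).trans (max_le (hθi _) (hrn r hr))
  obtain ⟨r, hr, hr1⟩ : ∃ r ∈ R, ‖θ ^ q - r‖ < 1 := by
    by_contra hcon
    push Not at hcon
    rw [hGe, norm_prod, Finset.prod_eq_one fun r hr => le_antisymm (hle1 r hr) (hcon r hr)] at h4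
    exact absurd h4 (not_le.2 pinv_lt_one)
  have hr2 : ‖θ ^ q - r‖ ≤ (p : ℝ)⁻¹ := by
    rw [hGe, norm_prod, ← Finset.mul_prod_erase R _ hr] at h4
    rw [Finset.prod_eq_one, mul_one] at h4
    · exact h4
    · intro s hs
      rw [Finset.mem_erase] at hs
      apply le_antisymm (hle1 s hs.2)
      rw [← hrs r hr s hs.2 hs.1.symm]
      have e : r - s = (θ ^ q - s) - (θ ^ q - r) := by ring
      rw [e]
      refine (norm_sub_le_max' _ _).trans (max_le le_rfl ?_)
      by_contra hcon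
      rw [not_le] at hcon
      have h5 : ‖r - s‖ < 1 := by
        rw [e]
        exact (norm_sub_le_max' _ _).trans_lt (max_lt (hcon.trans hr1) hr1)
      rw [hrs r hr s hs.2 hs.1.symm] at h5
      exact lt_irrefl _ h5
  obtain ⟨g, hgF, hgr⟩ := hgal r hr
  rw [← hgr] at hr2
  have hgFk : ∀ m : ℕ, ∀ z ∈ F, (g ^ m) z = z := by
    intro m
    induction m with
    | zero => intro z _; rfl
    | succ m ih =>
      intro z hz
      rw [pow_succ, AlgEquiv.mul_apply, hgF z hz, ih z hz]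
  have hiter : ∀ m : ℕ, ‖θ ^ p ^ (k * m) - (g ^ m) θ‖ ≤ (p : ℝ)⁻¹ := by
    intro m
    induction m with
    | zero =>
      rw [mul_zero, pow_zero, pow_one, pow_zero, AlgEquiv.one_apply, sub_self, norm_zero]
      exact pinv_pos.le
    | succ m ih =>
      have h5 : ‖(θ ^ p ^ (k * m)) ^ q - ((g ^ m) θ) ^ q‖ ≤ (p : ℝ)⁻¹ :=
        (cong_pow (hθi _) (by rw [norm_gal]; exact hθ.1) _).trans ih
      have h6 : ‖((g ^ m) θ) ^ q - (g ^ (m + 1)) θ‖ ≤ (p : ℝ)⁻¹ := by
        rw [← map_pow, pow_succ, AlgEquiv.mul_apply, ← map_sub, norm_gal]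
        exact hr2
      rw [← pow_mul, hq, ← pow_add] at h5
      have e : k * m + k = k * (m + 1) := by ring
      rw [e] at h5
      exact cong_trans h5 (by rw [hq] at h6; exact h6)
  -- a power of `g` fixes `θ`
  have hfin : ∃ i j : ℕ, i < j ∧ (g ^ i) θ = (g ^ j) θ := by
    obtain ⟨i, j, hij, h⟩ := Finite.exists_ne_map_eq_of_infinite
      (fun m : ℕ => (⟨(g ^ m) θ, hgR _ (hgFk m)⟩ : R))
    have h' : (g ^ i) θ = (g ^ j) θ := congrArg Subtype.val h
    rcases lt_or_gt_of_ne hij with h1 | h1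
    · exact ⟨i, j, h1, h'⟩
    · exact ⟨j, i, h1, h'.symm⟩
  obtain ⟨i, j, hij, h⟩ := hfin
  have hfix : (g ^ (j - i)) θ = θ := by
    have e : g ^ j = g ^ i * g ^ (j - i) := by rw [← pow_add]; congr 1; omega
    rw [e, AlgEquiv.mul_apply] at h
    exact ((g ^ i).injective h).symm
  refine ⟨k * (j - i), Nat.mul_pos hk (by omega), ?_⟩
  have := hiter (j - i)
  rwa [hfix] at this

/-- adjoining a separable element -/
theorem UR.step {F : IntermediateField ℚ_[p] (PadicAlgCl p)} (hF : UR F) {θ : PadicAlgCl p}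
    (hθ : Sep θ) : UR (adj F θ) := by
  classical
  intro x hx hx1
  obtain ⟨P, hP, hPc⟩ := sep_coeff hθ hx
  obtain ⟨f, hf, hfθ⟩ := sep_frob hF hθ
  have hc : ∀ i, ‖(P.coeff i : PadicAlgCl p)‖ ≤ 1 := fun i => (hPc i).trans hx1
  obtain ⟨k, hk, hper⟩ := hF.common ((range (P.natDegree + 1)).image
    fun i => (P.coeff i : PadicAlgCl p)) (by
    intro x hx
    obtain ⟨i, -, rfl⟩ := Finset.mem_image.1 hx
    exact ⟨(P.coeff i).2, hc i⟩)
  refine ⟨k * f, Nat.mul_pos hk hf, ?_⟩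
  have hθi : ∀ i : ℕ, ‖θ ^ i‖ ≤ 1 := fun i => by
    rw [norm_pow]; exact pow_le_one₀ (norm_nonneg _) hθ.1
  set q := p ^ (k * f) with hq
  have h1 := sum_frob_iter (range (P.natDegree + 1)) (fun i => (P.coeff i : PadicAlgCl p) * θ ^ i)
    (fun i _ => by rw [norm_mul]; exact mul_le_one₀ (hc i) (norm_nonneg _) (hθi i)) (k * f)
  rw [← hP, ← hq] at h1
  refine cong_trans h1 ?_
  have e0 : ∑ i ∈ range (P.natDegree + 1), ((P.coeff i : PadicAlgCl p) * θ ^ i) ^ q - x =
      ∑ i ∈ range (P.natDegree + 1), (((P.coeff i : PadicAlgCl p) * θ ^ i) ^ q -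
        (P.coeff i : PadicAlgCl p) * θ ^ i) := by
    rw [Finset.sum_sub_distrib, ← hP]
  rw [e0]
  apply norm_sum_le' _ _ pinv_pos.le
  intro i hi
  have h2 : ‖(P.coeff i : PadicAlgCl p) ^ q - P.coeff i‖ ≤ (p : ℝ)⁻¹ :=
    iter_period (hc i) (hper _ (Finset.mem_image_of_mem _ hi)) f
  have h3 : ‖θ ^ q - θ‖ ≤ (p : ℝ)⁻¹ := by
    rw [hq, mul_comm k f]
    exact iter_period hθ.1 hfθ k
  have e : ((P.coeff i : PadicAlgCl p) * θ ^ i) ^ q - (P.coeff i : PadicAlgCl p) * θ ^ i =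
      ((P.coeff i : PadicAlgCl p) ^ q - P.coeff i) * (θ ^ i) ^ q +
        (P.coeff i : PadicAlgCl p) * ((θ ^ q) ^ i - θ ^ i) := by
    rw [mul_pow, ← pow_mul, ← pow_mul, mul_comm i q]
    ring
  rw [e]
  refine (norm_add_le_max' _ _).trans (max_le ?_ ?_)
  · rw [norm_mul, ← pow_mul]
    calc _ ≤ (p : ℝ)⁻¹ * 1 := mul_le_mul h2 (hθi _) (norm_nonneg _) pinv_pos.le
      _ = _ := mul_one _
  · rw [norm_mul]
    calc _ ≤ 1 * (p : ℝ)⁻¹ := mul_le_mul (hc i)
          ((cong_pow (hθi q) hθ.1 i).trans h3) (norm_nonneg _) zero_le_one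
      _ = _ := one_mul _

theorem UR_bot : UR (⊥ : IntermediateField ℚ_[p] (PadicAlgCl p)) := by
  intro x hx hx1
  refine ⟨1, one_pos, ?_⟩
  rw [pow_one]
  obtain ⟨y, rfl⟩ := IntermediateField.mem_bot.1 hx
  rw [norm_algebraMap'] at hx1
  rw [← map_pow, ← map_sub, norm_algebraMap']
  set z : ℤ_[p] := ⟨y, hx1⟩ with hz
  have h1 : PadicInt.toZMod (z ^ p - z) = 0 := by
    rw [map_sub, map_pow, ZMod.pow_card, sub_self]
  have h2 : z ^ p - z ∈ RingHom.ker (PadicInt.toZMod (p := p)) := h1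
  rw [PadicInt.ker_toZMod, PadicInt.maximalIdeal_eq_span_p, Ideal.mem_span_singleton] at h2
  obtain ⟨w, hw⟩ := h2
  have h3 : ‖z ^ p - z‖ ≤ (p : ℝ)⁻¹ := by
    rw [hw, norm_mul, PadicInt.norm_p]
    have := PadicInt.norm_le_one w
    have := pinv_pos (p := p)
    nlinarith
  exact h3

/-- the field generated by the separable elements (the maximal unramified extension) -/
noncomputable def Unr (p : ℕ) [Fact p.Prime] : IntermediateField ℚ_[p] (PadicAlgCl p) :=
  adjoin ℚ_[p] {θ | Sep θ}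

theorem Sep.mem {θ : PadicAlgCl p} (h : Sep θ) : θ ∈ Unr p := subset_adjoin _ _ h

theorem UR_unr : UR (Unr p) := by
  classical
  have h1 : ∀ s : Finset (PadicAlgCl p), (∀ x ∈ s, Sep x) →
      ∃ F : IntermediateField ℚ_[p] (PadicAlgCl p), UR F ∧ ∀ x ∈ s, x ∈ F := by
    intro s
    induction s using Finset.induction_on with
    | empty => exact fun _ => ⟨⊥, UR_bot, fun x hx => absurd hx (by simp)⟩
    | insert a s ha ih =>
      intro h
      obtain ⟨F, hF, hs⟩ := ih fun x hx => h x (mem_insert_of_mem hx)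
      refine ⟨adj F a, hF.step (h a (mem_insert_self _ _)), fun x hx => ?_⟩
      rcases mem_insert.1 hx with rfl | hx
      · exact mem_adj_self _ _
      · exact le_adj _ _ (hs x hx)
  intro x hx hx1
  unfold Unr at hx
  obtain ⟨T, hT, hxT⟩ := IntermediateField.exists_finset_of_mem_adjoin hx
  obtain ⟨F, hF, hTF⟩ := h1 T fun y hy => hT hy
  exact hF x (adjoin_le_iff.2 (fun y hy => hTF y hy) hxT) hx1

end CP
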