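import Pool.Agent.Lib_helper72.CP.CP1

/-!
Radicals over an unramified field: the dichotomy.
-/

set_option autoImplicit false

namespace CP

open Finset IntermediateField MS

variable {p : ℕ} [hp : Fact p.Prime]

theorem sep_unity {n : ℕ} (hn : n.Coprime p) {θ : PadicAlgCl p} (h : θ ^ n = 1) : Sep θ := by
  have hn0 : n ≠ 0 := by
    rintro rfl
    rw [Nat.coprime_zero_left] at hn
    exact hp.out.one_lt.ne' hn
  refine ⟨(norm_root_of_unity hn0 h).le, fun g hg => ?_⟩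
  exact norm_unity_sub hn (by rw [← map_pow, h, map_one]) h hg

theorem sep_root {n : ℕ} (hn : n.Coprime p) {θ a : PadicAlgCl p} (ha : Sep a) (ha1 : ‖a‖ = 1)
    (h : θ ^ n = a) : Sep θ := by
  have hn0 : n ≠ 0 := by
    rintro rfl
    rw [Nat.coprime_zero_left] at hn
    exact hp.out.one_lt.ne' hn
  have hθ1 : ‖θ‖ = 1 := by
    rw [← h, norm_pow] at ha1
    exact (pow_eq_one_iff_of_nonneg (norm_nonneg _) hn0).1 ha1
  have hθ0 : θ ≠ 0 := by
    rintro rfl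
    rw [norm_zero] at hθ1
    exact zero_ne_one hθ1
  refine ⟨hθ1.le, fun g hg => ?_⟩
  by_cases hga : g a = a
  · have h1 : (g θ / θ) ^ n = 1 := by
      rw [div_pow, ← map_pow, h, hga, div_self]
      rintro rfl
      rw [norm_zero] at ha1
      exact zero_ne_one ha1
    have h2 : g θ / θ ≠ 1 := by
      intro h3
      rw [div_eq_one_iff_eq hθ0] at h3
      exact hg h3
    have h3 := norm_unity_sub_one hn h1 h2
    have e : g θ - θ = (g θ / θ - 1) * θ := by field_simp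
    rw [e, norm_mul, h3, hθ1, one_mul]
  · apply le_antisymm
    · refine (norm_sub_le_max' _ _).trans (max_le ?_ hθ1.le)
      rw [norm_gal]
      exact hθ1.le
    · rw [← ha.2 g hga, ← h, map_pow]
      exact cong_pow (by rw [norm_gal]; exact hθ1.le) hθ1.le n

/-- the norm is not changed by a small summand -/
theorem norm_add_small {x y : PadicAlgCl p} (h : ‖y‖ < ‖x‖) : ‖x + y‖ = ‖x‖ := by
  rw [IsUltrametricDist.norm_add_eq_max_of_norm_ne_norm h.ne', max_eq_left h.le]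

theorem pow_norm {x a : PadicAlgCl p} (hx : ‖x‖ ≤ 1) (ha : ‖a‖ ≤ 1)
    (h1 : (p : ℝ)⁻¹ ≤ ‖x ^ p - a ^ p‖) (h2 : ‖x ^ p - a ^ p‖ < 1) :
    ‖x - a‖ ^ p = ‖x ^ p - a ^ p‖ := by
  have h3 := frob_cancel hx ha h2
  have h4 := norm_add_pow_sub_le (x := x - a) (y := a) (M := 1) h3.le ha
  rw [sub_add_cancel, one_pow, mul_one] at h4
  have h5 : (p : ℝ)⁻¹ * ‖x - a‖ < (p : ℝ)⁻¹ := by
    have := pinv_pos (p := p)
    nlinarith
  have e : (x - a) ^ p = (x ^ p - a ^ p) + -(x ^ p - (x - a) ^ p - a ^ p) := by ring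
  rw [← norm_pow, e]
  apply norm_add_small
  rw [norm_neg]
  exact (h4.trans_lt h5).trans_le h1

/-- the norm of a difference from the norm of the difference of the `p ^ m`-th powers -/
theorem pow_norm_iter (m : ℕ) {x a : PadicAlgCl p} (hx : ‖x‖ ≤ 1) (ha : ‖a‖ ≤ 1)
    (h1 : (p : ℝ)⁻¹ ≤ ‖x ^ p ^ m - a ^ p ^ m‖) (h2 : ‖x ^ p ^ m - a ^ p ^ m‖ < 1) :
    ‖x - a‖ ^ p ^ m = ‖x ^ p ^ m - a ^ p ^ m‖ := by
  induction m with
  | zero => simp
  | succ m ih =>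
    have hX : ‖x ^ p ^ m‖ ≤ 1 := by rw [norm_pow]; exact pow_le_one₀ (norm_nonneg _) hx
    have hA : ‖a ^ p ^ m‖ ≤ 1 := by rw [norm_pow]; exact pow_le_one₀ (norm_nonneg _) ha
    have ex : x ^ p ^ (m + 1) = (x ^ p ^ m) ^ p := by rw [← pow_mul, pow_succ]
    have ea : a ^ p ^ (m + 1) = (a ^ p ^ m) ^ p := by rw [← pow_mul, pow_succ]
    rw [ex, ea] at h1 h2 ⊢
    have h3 := pow_norm hX hA h1 h2
    have h4 := frob_cancel hX hA h2
    have h5 : (p : ℝ)⁻¹ ≤ ‖x ^ p ^ m - a ^ p ^ m‖ := by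
      refine h1.trans ?_
      rw [← h3]
      exact pow_le_of_le_one (norm_nonneg _) h4.le hp.out.ne_zero
    have h6 := ih h5 h4
    rw [pow_succ, pow_mul, h6, h3]

/-- approximate roots -/
theorem UR.root {F : IntermediateField ℚ_[p] (PadicAlgCl p)} (hF : UR F) {t : PadicAlgCl p}
    (ht : t ∈ F) (ht1 : ‖t‖ ≤ 1) (m : ℕ) : ∃ a ∈ F, ‖a‖ ≤ 1 ∧ ‖a ^ p ^ m - t‖ ≤ (p : ℝ)⁻¹ := by
  obtain ⟨f, hf, h⟩ := hF t ht ht1
  have h1 := iter_period ht1 h m
  have hle : m ≤ f * m := Nat.le_mul_of_pos_left m hf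
  refine ⟨t ^ p ^ (f * m - m), pow_mem ht _, ?_, ?_⟩
  · rw [norm_pow]; exact pow_le_one₀ (norm_nonneg _) ht1
  · rw [← pow_mul, ← pow_add, Nat.sub_add_cancel hle]
    exact h1

theorem varpi_pow : Real.exp (-pi0 p) ^ (p - 1) = (p : ℝ)⁻¹ := by
  have hp0 : (0 : ℝ) < p := by exact_mod_cast hp.out.pos
  rw [← Real.exp_nat_mul, Nat.cast_sub hp.out.one_lt.le, Nat.cast_one, mul_neg,
    p_sub_one_mul_pi0, Real.exp_neg, Real.exp_log hp0]

theorem varpi_lt : Real.exp (-pi0 p) < 1 := by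
  rw [Real.exp_lt_one_iff]
  have := pi0_pos p
  linarith

theorem varpi_gt (hp3 : 3 ≤ p) : (p : ℝ)⁻¹ < Real.exp (-pi0 p) := by
  have h1 : Real.exp (-pi0 p) ^ (p - 1) < Real.exp (-pi0 p) ^ 1 :=
    pow_lt_pow_right_of_lt_one₀ (Real.exp_pos _) varpi_lt (by omega)
  rw [pow_one] at h1
  rw [← varpi_pow]
  exact h1

theorem varpi_pow_p (hp3 : 3 ≤ p) : (p : ℝ)⁻¹ ^ 2 < Real.exp (-pi0 p) ^ p := by
  have h1 : Real.exp (-pi0 p) ^ p = Real.exp (-pi0 p) ^ (p - 1) * Real.exp (-pi0 p) := by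
    rw [← pow_succ]; congr 1; omega
  rw [h1, varpi_pow, sq]
  have := varpi_gt hp3
  have := pinv_pos (p := p)
  gcongr

/-- a form of Hensel's lemma for `X ^ p - u` -/
theorem UR.hensel {U : IntermediateField ℚ_[p] (PadicAlgCl p)} (hU : UR U) (hp3 : 3 ≤ p)
    {b u : PadicAlgCl p} (hb : b ∈ U) (hu : u ∈ U) (hu1 : ‖u‖ = 1)
    (h : ‖b ^ p - u‖ < (p : ℝ)⁻¹) : ∃ v ∈ U, v ^ p = u := by
  have hp1 : (1 : ℝ) < p := by exact_mod_cast hp.out.one_lt
  have hp0 : (0 : ℝ) < p := by linarith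
  have hle : ‖b ^ p - u‖ ≤ (p : ℝ)⁻¹ ^ 2 := by
    by_cases h0 : b ^ p - u = 0
    · rw [h0, norm_zero]; positivity
    obtain ⟨n, hn⟩ := hU.zpow (sub_mem (pow_mem hb p) hu) h0
    rw [hn] at h ⊢
    have h1 : (p : ℝ) ^ n < (p : ℝ) ^ (-1 : ℤ) := by rwa [zpow_neg_one]
    have h2 : n < -1 := (zpow_lt_zpow_iff_right₀ hp1).1 h1
    have h3 : (p : ℝ)⁻¹ ^ 2 = (p : ℝ) ^ (-2 : ℤ) := by
      rw [inv_pow, ← zpow_natCast, ← _root_.zpow_neg]
      rfl
    rw [h3]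
    exact (zpow_le_zpow_iff_right₀ hp1).2 (by omega)
  obtain ⟨v, hv⟩ := IsAlgClosed.exists_pow_nat_eq u hp.out.pos
  obtain ⟨ω, hω⟩ := exists_prim (p := p) p hp.out.pos
  have hprod := hω.pow_sub_pow_eq_prod_sub_mul b v hp.out.pos
  obtain ⟨z, hz, hzb⟩ : ∃ z ∈ Polynomial.nthRootsFinset p (1 : PadicAlgCl p),
      ‖b - z * v‖ < Real.exp (-pi0 p) := by
    by_contra hcon
    push Not at hcon
    have h1 : Real.exp (-pi0 p) ^ p ≤ ‖b ^ p - v ^ p‖ := by
      rw [hprod, norm_prod]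
      calc Real.exp (-pi0 p) ^ p =
          ∏ _z ∈ Polynomial.nthRootsFinset p (1 : PadicAlgCl p), Real.exp (-pi0 p) := by
            rw [Finset.prod_const, hω.card_nthRootsFinset]
        _ ≤ _ := Finset.prod_le_prod (fun _ _ => (Real.exp_pos _).le) fun z hz => hcon z hz
    rw [hv] at h1
    have := varpi_pow_p hp3
    linarith
  have hz1 : z ^ p = 1 := (Polynomial.mem_nthRootsFinset hp.out.pos _).1 hz
  set w := z * v with hw
  have hwp : w ^ p = u := by rw [hw, mul_pow, hz1, one_mul, hv]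
  have hw1 : ‖w‖ = 1 := by
    rw [← hwp, norm_pow] at hu1
    exact (pow_eq_one_iff_of_nonneg (norm_nonneg _) hp.out.ne_zero).1 hu1
  have hw0 : w ≠ 0 := by
    rintro h0
    rw [h0, norm_zero] at hw1
    exact zero_ne_one hw1
  refine ⟨w, ?_, hwp⟩
  rw [mem_iff_fixed]
  intro g hg
  by_contra hne
  have h1 : (g w / w) ^ p = 1 := by
    rw [div_pow, ← map_pow, hwp, hg u hu, div_self]
    rintro rfl
    rw [norm_zero] at hu1
    exact zero_ne_one hu1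
  have h2 : g w / w ≠ 1 := by
    intro h3
    rw [div_eq_one_iff_eq hw0] at h3
    exact hne h3
  have h3 := norm_zeta_sub_one h1 h2
  have e : g w - w = (g w / w - 1) * w := by field_simp
  have h4 : ‖g w - w‖ = Real.exp (-pi0 p) := by rw [e, norm_mul, h3, hw1, mul_one]
  have h5 : ‖g w - w‖ < Real.exp (-pi0 p) := by
    have e2 : g w - w = (b - w) - g (b - w) := by
      rw [map_sub, hg b hb]; ring
    rw [e2]
    refine (norm_sub_le_max' _ _).trans_lt (max_lt hzb ?_)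
    rw [norm_gal]
    exact hzb
  linarith

end CP
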