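import Pool.Agent.Lib_helper72.CP.CP2

/-!
The dichotomy for radicals over an unramified field.
-/

set_option autoImplicit false

namespace CP

open Finset IntermediateField MS

variable {p : ℕ} [hp : Fact p.Prime]

theorem deg_le_zero {U : IntermediateField ℚ_[p] (PadicAlgCl p)} {T u : PadicAlgCl p} (hu : u ∈ U)
    {M : ℕ} (h : T ^ p ^ M = u) : (minpoly U T).natDegree ≤ p ^ M := by
  have hpM : p ^ M ≠ 0 := pow_ne_zero _ hp.out.ne_zero
  have h1 : Polynomial.aeval T (Polynomial.X ^ p ^ M - Polynomial.C (⟨u, hu⟩ : U)) = 0 := by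
    rw [map_sub, map_pow, Polynomial.aeval_X, Polynomial.aeval_C, sub_eq_zero, h]
    rfl
  have h2 := Polynomial.natDegree_le_of_dvd (minpoly.dvd U T h1)
    (Polynomial.monic_X_pow_sub_C _ hpM).ne_zero
  rwa [Polynomial.natDegree_X_pow_sub_C] at h2

theorem deg_le_succ {U : IntermediateField ℚ_[p] (PadicAlgCl p)} {T u ξ : PadicAlgCl p}
    (hu : u ∈ U) (hu0 : u ≠ 0) {M r : ℕ} (h : T ^ p ^ M = ξ * u) (h1 : (ξ ^ p ^ r) ^ p = 1)
    (h2 : ξ ^ p ^ r ≠ 1) : (minpoly U T).natDegree ≤ p ^ M * ((p - 1) * p ^ r) := by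
  set ω := ξ ^ p ^ r with hω
  set N := p ^ M * p ^ r with hN
  have hNpos : 0 < N := Nat.mul_pos (pow_pos hp.out.pos _) (pow_pos hp.out.pos _)
  set c : U := (⟨u, hu⟩ : U) ^ p ^ r with hc
  have hcu : algebraMap U (PadicAlgCl p) c = u ^ p ^ r := by
    rw [hc, map_pow]; rfl
  set P : Polynomial U := ∑ j ∈ range p, Polynomial.C (c⁻¹ ^ j) * Polynomial.X ^ (N * j) with hP
  have hP0 : P ≠ 0 := by
    intro h0
    have h3 : P.coeff 0 = 1 := by
      rw [hP, Polynomial.finsetSum_coeff, Finset.sum_eq_single 0]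
      · simp
      · intro j _ hj
        rw [Polynomial.coeff_C_mul, Polynomial.coeff_X_pow, if_neg, mul_zero]
        intro h4
        rcases Nat.mul_eq_zero.1 h4.symm with h5 | h5
        · omega
        · exact hj h5
      · intro h4
        exact absurd (Finset.mem_range.2 hp.out.pos) h4
    rw [h0, Polynomial.coeff_zero] at h3
    exact zero_ne_one h3
  have hev : Polynomial.aeval T P = 0 := by
    have h3 : ∑ j ∈ range p, ω ^ j = 0 := by
      have h4 := mul_geom_sum ω p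
      rw [h1, sub_self] at h4
      exact (mul_eq_zero.1 h4).resolve_left (sub_ne_zero.2 h2)
    rw [hP, map_sum, ← h3]
    refine Finset.sum_congr rfl fun j _ => ?_
    rw [map_mul, Polynomial.aeval_C, map_pow, map_pow, Polynomial.aeval_X, map_inv₀, hcu, pow_mul,
      ← mul_pow, hN, pow_mul, h, mul_pow ξ u, hω]
    congr 1
    rw [mul_comm (ξ ^ p ^ r), inv_mul_cancel_left₀ (pow_ne_zero (p ^ r) hu0)]
  have hdeg : P.natDegree ≤ N * (p - 1) := by
    refine Polynomial.natDegree_sum_le_of_forall_le _ _ fun j hj => ?_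
    refine (Polynomial.natDegree_C_mul_X_pow_le _ _).trans ?_
    rw [Finset.mem_range] at hj
    exact Nat.mul_le_mul_left _ (by omega)
  refine (Polynomial.natDegree_le_of_dvd (minpoly.dvd U T hev) hP0).trans (hdeg.trans ?_)
  rw [hN, mul_assoc, mul_comm (p ^ r)]

/-- the last nontrivial power of a root of unity of `p`-power order -/
theorem last_power {ξ : PadicAlgCl p} {j : ℕ} (h : ξ ^ p ^ j = 1) :
    ξ = 1 ∨ ∃ r : ℕ, (ξ ^ p ^ r) ^ p = 1 ∧ ξ ^ p ^ r ≠ 1 := by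
  classical
  have hex : ∃ j : ℕ, ξ ^ p ^ j = 1 := ⟨j, h⟩
  rcases Nat.eq_zero_or_pos (Nat.find hex) with h0 | h0
  · left
    have := Nat.find_spec hex
    rwa [h0, pow_zero, pow_one] at this
  · right
    refine ⟨Nat.find hex - 1, ?_, Nat.find_min hex (by omega)⟩
    rw [← pow_mul, ← pow_succ, Nat.sub_add_cancel h0]
    exact Nat.find_spec hex

/-- the norm of `ξ - 1` -/
theorem norm_xi (hp3 : 3 ≤ p) {ξ : PadicAlgCl p} {r : ℕ} (h1 : (ξ ^ p ^ r) ^ p = 1)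
    (h2 : ξ ^ p ^ r ≠ 1) : ‖ξ - 1‖ ^ p ^ r = Real.exp (-pi0 p) ∧ ‖ξ - 1‖ < 1 ∧
      (p : ℝ)⁻¹ < ‖ξ - 1‖ := by
  have hξ : ‖ξ‖ = 1 := by
    have h3 : ξ ^ (p ^ r * p) = 1 := by rw [pow_mul]; exact h1
    exact norm_root_of_unity (mul_ne_zero (pow_ne_zero _ hp.out.ne_zero) hp.out.ne_zero) h3
  have h3 := norm_zeta_sub_one h1 h2
  have h4 := pow_norm_iter r (x := ξ) (a := 1) hξ.le (by simp) (by
    rw [one_pow, h3]; exact (varpi_gt hp3).le) (by rw [one_pow, h3]; exact varpi_lt)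
  rw [one_pow, h3] at h4
  have h5 : ‖ξ - 1‖ ≤ 1 := (norm_sub_le_max' _ _).trans (by simp [hξ])
  refine ⟨h4, ?_, ?_⟩
  · rcases lt_or_eq_of_le h5 with h | h
    · exact h
    · rw [h, one_pow] at h4
      exact absurd h4.symm (varpi_lt (p := p)).ne
  · refine (varpi_gt hp3).trans_le ?_
    rw [← h4]
    exact pow_le_of_le_one (norm_nonneg _) h5 (pow_ne_zero _ hp.out.ne_zero)

/-- **The dichotomy.** -/
theorem dichotomy {U : IntermediateField ℚ_[p] (PadicAlgCl p)} (hU : UR U) (hp3 : 3 ≤ p)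
    {θ : PadicAlgCl p} (hθ1 : ‖θ‖ = 1) {s : ℕ} (hθ : θ ^ p ^ s ∈ U) :
    (∃ ζ : PadicAlgCl p, ζ ^ p = 1 ∧ ζ * θ ∈ U) ∨
    ∃ a ∈ U, ∃ (δ : ℝ) (n : ℕ), ‖a‖ ≤ 1 ∧ 0 < δ ∧ δ < 1 ∧ 0 < n ∧
      (∀ ζ : PadicAlgCl p, ζ ^ p = 1 → ‖ζ * θ - a‖ = δ) ∧ ‖θ ^ p - a ^ p‖ = δ ^ p ∧
      (minpoly U (θ ^ p)).natDegree ≤ n ∧ (δ ^ p) ^ n = (p : ℝ)⁻¹ := by
  classical
  have hθ0 : θ ≠ 0 := by
    rintro rfl
    rw [norm_zero] at hθ1
    exact zero_ne_one hθ1
  have hppos : 0 < p := hp.out.pos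
  have hpinv := pinv_pos (p := p)
  have hex : ∃ m : ℕ, ∃ (ξ u : PadicAlgCl p) (j : ℕ), ξ ^ p ^ j = 1 ∧ u ∈ U ∧
      θ ^ p ^ m = ξ * u := ⟨s, 1, θ ^ p ^ s, 0, by simp, hθ, by rw [one_mul]⟩
  set m := Nat.find hex with hm
  obtain ⟨ξ, u, j, hξj, huU, hθm⟩ := Nat.find_spec hex
  rw [← hm] at hθm
  have hmin : ∀ k < m, ¬ ∃ (ξ u : PadicAlgCl p) (j : ℕ), ξ ^ p ^ j = 1 ∧ u ∈ U ∧
      θ ^ p ^ k = ξ * u := fun k hk => Nat.find_min hex hk
  have hξ1 : ‖ξ‖ = 1 := norm_root_of_unity (pow_ne_zero _ hp.out.ne_zero) hξj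
  have hu1 : ‖u‖ = 1 := by
    have h1 := congrArg norm hθm
    rwa [norm_pow, hθ1, one_pow, norm_mul, hξ1, one_mul, eq_comm] at h1
  have hu0 : u ≠ 0 := by
    rintro rfl
    rw [norm_zero] at hu1
    exact zero_ne_one hu1
  rcases Nat.eq_zero_or_pos m with hm0 | hmpos
  · -- `θ = ξ u`
    rw [hm0, pow_zero, pow_one] at hθm
    rcases last_power hξj with h | ⟨r, hr1, hr2⟩
    · left
      refine ⟨1, one_pow _, ?_⟩
      rw [one_mul, hθm, h, one_mul]
      exact huU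
    · rcases Nat.eq_zero_or_pos r with hr0 | hrpos
      · left
        rw [hr0, pow_zero, pow_one] at hr1
        have hξ0 : ξ ≠ 0 := by
          rintro rfl
          rw [norm_zero] at hξ1
          exact zero_ne_one hξ1
        refine ⟨ξ⁻¹, by rw [inv_pow, hr1, inv_one], ?_⟩
        rw [hθm, inv_mul_cancel_left₀ hξ0]
        exact huU
      · right
        obtain ⟨r, rfl⟩ := Nat.exists_eq_succ_of_ne_zero hrpos.ne'
        obtain ⟨hδ, hδ1, hδp⟩ := norm_xi hp3 hr1 hr2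
        have hpr : p ^ (r + 1) ≠ 0 := pow_ne_zero _ hp.out.ne_zero
        -- the element `ξ ^ p`
        have hq1 : ((ξ ^ p) ^ p ^ r) ^ p = 1 := by
          rw [← pow_mul ξ, ← pow_succ']; exact hr1
        have hq2 : (ξ ^ p) ^ p ^ r ≠ 1 := by
          rw [← pow_mul ξ, ← pow_succ']; exact hr2
        obtain ⟨hε, -, -⟩ := norm_xi hp3 hq1 hq2
        have hεδ : ‖ξ ^ p - 1‖ = ‖ξ - 1‖ ^ p := by
          have h3 : ‖ξ ^ p - 1‖ ^ p ^ r = (‖ξ - 1‖ ^ p) ^ p ^ r := by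
            rw [hε, ← pow_mul, ← pow_succ', hδ]
          exact (pow_left_inj₀ (norm_nonneg _) (by positivity)
            (pow_ne_zero _ hp.out.ne_zero)).1 h3
        refine ⟨u, huU, ‖ξ - 1‖, p ^ 0 * ((p - 1) * p ^ r), hu1.le, hpinv.trans hδp, hδ1, ?_, ?_,
          ?_, ?_, ?_⟩
        · have := hp.out.one_lt
          have : 0 < p - 1 := by omega
          positivity
        · intro ζ hζ
          have e : ζ * θ - u = (ζ * ξ - 1) * u := by rw [hθm]; ring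
          rw [e, norm_mul, hu1, mul_one]
          have h4 : (ζ * ξ) ^ p ^ (r + 1) = ξ ^ p ^ (r + 1) := by
            rw [mul_pow, pow_succ', pow_mul ζ, hζ, one_pow, one_mul]
          have h5 := norm_xi hp3 (ξ := ζ * ξ) (r := r + 1) (by rw [h4]; exact hr1)
            (by rw [h4]; exact hr2)
          have h6 : ‖ζ * ξ - 1‖ ^ p ^ (r + 1) = ‖ξ - 1‖ ^ p ^ (r + 1) := by rw [h5.1, hδ]
          exact (pow_left_inj₀ (norm_nonneg _) (norm_nonneg _) hpr).1 h6
        · have e : θ ^ p - u ^ p = (ξ ^ p - 1) * u ^ p := by rw [hθm]; ring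
          rw [e, norm_mul, norm_pow u, hu1, one_pow, mul_one, hεδ]
        · refine deg_le_succ (u := u ^ p) (ξ := ξ ^ p) (M := 0) (pow_mem huU p)
            (pow_ne_zero _ hu0) ?_ hq1 hq2
          rw [pow_zero, pow_one, hθm, mul_pow]
        · rw [pow_zero, one_mul, ← hεδ, mul_comm (p - 1), pow_mul, hε, varpi_pow]
  · right
    obtain ⟨M, hM⟩ := Nat.exists_eq_succ_of_ne_zero hmpos.ne'
    rw [Nat.succ_eq_add_one] at hM
    obtain ⟨a, haU, ha1, hau⟩ := hU.root huU hu1.le m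
    have ham : ‖a ^ p ^ m‖ ≤ 1 := by rw [norm_pow]; exact pow_le_one₀ (norm_nonneg _) ha1
    -- the number `η`
    obtain ⟨n₀, hn₀, hη1, hη2, hη3, hdeg⟩ : ∃ n₀ : ℕ, 0 < n₀ ∧
        (p : ℝ)⁻¹ ≤ ‖θ ^ p ^ m - a ^ p ^ m‖ ∧ ‖θ ^ p ^ m - a ^ p ^ m‖ < 1 ∧
        ‖θ ^ p ^ m - a ^ p ^ m‖ ^ n₀ = (p : ℝ)⁻¹ ∧
        (minpoly U (θ ^ p)).natDegree ≤ p ^ M * n₀ := by
      rcases last_power hξj with h | ⟨r, hr1, hr2⟩
      · rw [h, one_mul] at hθm
        have h3 : ‖θ ^ p ^ m - a ^ p ^ m‖ = (p : ℝ)⁻¹ := by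
          rw [hθm, norm_sub_rev]
          apply le_antisymm hau
          by_contra hcon
          rw [not_le] at hcon
          have e1 : a ^ p ^ m = (a ^ p ^ M) ^ p := by rw [hM, pow_succ, pow_mul]
          rw [e1] at hcon
          obtain ⟨v, hvU, hv⟩ := hU.hensel hp3 (pow_mem haU _) huU hu1 hcon
          have hv0 : v ≠ 0 := by
            rintro rfl
            rw [zero_pow hp.out.ne_zero] at hv
            exact hu0 hv.symm
          refine hmin M (by omega) ⟨θ ^ p ^ M / v, v, 1, ?_, hvU, ?_⟩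
          · rw [pow_one, div_pow, hv, ← hθm, hM, ← pow_mul, ← pow_succ, div_self]
            exact pow_ne_zero _ hθ0
          · field_simp
        refine ⟨1, one_pos, h3.ge, by rw [h3]; exact pinv_lt_one, by rw [pow_one, h3], ?_⟩
        rw [mul_one]
        refine deg_le_zero huU ?_
        rw [← hθm, hM, ← pow_mul, ← pow_succ']
      · obtain ⟨hδ, hδ1, hδp⟩ := norm_xi hp3 hr1 hr2
        have h3 : ‖θ ^ p ^ m - a ^ p ^ m‖ = ‖ξ - 1‖ := by
          have e : θ ^ p ^ m - a ^ p ^ m = (ξ - 1) * u + (u - a ^ p ^ m) := by rw [hθm]; ring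
          have e2 : ‖(ξ - 1) * u‖ = ‖ξ - 1‖ := by rw [norm_mul, hu1, mul_one]
          rw [e, norm_add_small, e2]
          rw [e2, norm_sub_rev]
          exact hau.trans_lt hδp
        refine ⟨(p - 1) * p ^ r, ?_, by rw [h3]; exact hδp.le, by rw [h3]; exact hδ1, ?_, ?_⟩
        · have := hp.out.one_lt
          have : 0 < p - 1 := by omega
          positivity
        · rw [h3, mul_comm (p - 1), pow_mul, hδ, varpi_pow]
        · refine deg_le_succ huU hu0 ?_ hr1 hr2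
          rw [← hθm, hM, ← pow_mul, ← pow_succ']
    have hδ := pow_norm_iter m hθ1.le ha1 hη1 hη2
    have hpm : p ^ m ≠ 0 := pow_ne_zero _ hp.out.ne_zero
    have hδ0 : 0 < ‖θ - a‖ := by
      rcases (norm_nonneg (θ - a)).eq_or_lt with h | h
      · rw [← h, zero_pow hpm] at hδ
        rw [← hδ] at hη1
        exact absurd hη1 (not_le.2 hpinv)
      · exact h
    have hδ1 : ‖θ - a‖ < 1 := by
      rw [← hδ] at hη2
      exact (pow_lt_one_iff_of_nonneg (norm_nonneg _) hpm).1 hη2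
    refine ⟨a, haU, ‖θ - a‖, p ^ M * n₀, ha1, hδ0, hδ1,
      Nat.mul_pos (pow_pos hppos _) hn₀, ?_, ?_, hdeg, ?_⟩
    · intro ζ hζ
      have hζ1 : ‖ζ‖ = 1 := norm_root_of_unity hp.out.ne_zero hζ
      have e : (ζ * θ) ^ p ^ m = θ ^ p ^ m := by
        rw [mul_pow, hM, pow_succ', pow_mul ζ, hζ, one_pow, one_mul]
      have h3 := pow_norm_iter m (x := ζ * θ) (a := a) (by rw [norm_mul, hζ1, hθ1, one_mul]) ha1
        (by rw [e]; exact hη1) (by rw [e]; exact hη2)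
      rw [e, ← hδ] at h3
      exact (pow_left_inj₀ (norm_nonneg _) (norm_nonneg _) hpm).1 h3
    · have e1 : ∀ x : PadicAlgCl p, x ^ p ^ m = (x ^ p) ^ p ^ M := fun x => by
        rw [hM, pow_succ', pow_mul]
      have h3 := pow_norm_iter M (x := θ ^ p) (a := a ^ p)
        (by rw [norm_pow, hθ1, one_pow]) (by rw [norm_pow]; exact pow_le_one₀ (norm_nonneg _) ha1)
        (by rw [← e1, ← e1]; exact hη1) (by rw [← e1, ← e1]; exact hη2)
      rw [← e1, ← e1, ← hδ, hM, pow_succ', pow_mul] at h3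
      exact (pow_left_inj₀ (norm_nonneg _) (by positivity) (pow_ne_zero _ hp.out.ne_zero)).1 h3
    · rw [← hη3, ← hδ, ← pow_mul, ← pow_mul, hM, pow_succ']
      congr 1
      ring

end CP
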