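import Pool.Agent.Lib_helper72.CP.CP3
import Pool.Agent.Lib_helper72.SP.Vol2

/-!
Local bounds for the minors: tools.
-/

set_option autoImplicit false

namespace CP

open Finset Polynomial MS RR SP

variable {p : ℕ} [hp : Fact p.Prime]

/-! ### sums of terms with different norms -/

theorem ultra_sum {ι : Type*} [DecidableEq ι] (s : Finset ι) (f : ι → PadicAlgCl p)
    (hne : ∀ i ∈ s, ∀ j ∈ s, i ≠ j → f i ≠ 0 → f j ≠ 0 → ‖f i‖ ≠ ‖f j‖) :
    (∀ i ∈ s, ‖f i‖ ≤ ‖∑ i ∈ s, f i‖) ∧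
      (∑ i ∈ s, f i = 0 ∨ ∃ i ∈ s, f i ≠ 0 ∧ ‖∑ i ∈ s, f i‖ = ‖f i‖) := by
  induction s using Finset.induction_on with
  | empty => exact ⟨fun i hi => absurd hi (by simp), Or.inl Finset.sum_empty⟩
  | insert a s ha ih =>
    obtain ⟨h1, h2⟩ := ih fun i hi j hj => hne i (mem_insert_of_mem hi) j (mem_insert_of_mem hj)
    rw [Finset.sum_insert ha]
    set S := ∑ i ∈ s, f i with hS
    by_cases hfa : f a = 0
    · rw [hfa, zero_add]
      refine ⟨fun i hi => ?_, ?_⟩
      · rcases mem_insert.1 hi with rfl | hi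
        · rw [hfa, norm_zero]; exact norm_nonneg _
        · exact h1 i hi
      · rcases h2 with h2 | ⟨i, hi, h3, h4⟩
        · exact Or.inl h2
        · exact Or.inr ⟨i, mem_insert_of_mem hi, h3, h4⟩
    · rcases h2 with h2 | ⟨i, hi, h3, h4⟩
      · rw [h2, add_zero]
        refine ⟨fun i hi => ?_, Or.inr ⟨a, mem_insert_self _ _, hfa, rfl⟩⟩
        rcases mem_insert.1 hi with rfl | hi
        · exact le_rfl
        · have := h1 i hi
          rw [h2, norm_zero] at this
          exact this.trans (norm_nonneg _)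
      · have hai : a ≠ i := fun h => ha (h ▸ hi)
        have h5 := hne a (mem_insert_self _ _) i (mem_insert_of_mem hi) hai hfa h3
        rw [← h4] at h5
        rw [IsUltrametricDist.norm_add_eq_max_of_norm_ne_norm h5]
        refine ⟨fun j hj => ?_, Or.inr ?_⟩
        · rcases mem_insert.1 hj with rfl | hj
          · exact le_max_left _ _
          · exact (h1 j hj).trans (le_max_right _ _)
        · rcases max_choice ‖f a‖ ‖S‖ with h6 | h6
          · exact ⟨a, mem_insert_self _ _, hfa, h6⟩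
          · exact ⟨i, mem_insert_of_mem hi, h3, by rw [h6, h4]⟩

/-! ### polynomials with integral coefficients -/

section IB

variable {F : IntermediateField ℚ_[p] (PadicAlgCl p)}

/-- integral coefficients -/
def IB (W : F[X]) : Prop := ∀ i, ‖((W.coeff i : F) : PadicAlgCl p)‖ ≤ 1

theorem IB.add {V W : F[X]} (hV : IB V) (hW : IB W) : IB (V + W) := fun i => by
  rw [coeff_add]
  exact (norm_add_le_max' _ _).trans (max_le (hV i) (hW i))

theorem IB.sub {V W : F[X]} (hV : IB V) (hW : IB W) : IB (V - W) := fun i => by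
  rw [coeff_sub]
  exact (norm_sub_le_max' _ _).trans (max_le (hV i) (hW i))

theorem IB.mul {V W : F[X]} (hV : IB V) (hW : IB W) : IB (V * W) := fun i => by
  rw [coeff_mul]
  have e : ((∑ x ∈ antidiagonal i, V.coeff x.1 * W.coeff x.2 : F) : PadicAlgCl p) =
      ∑ x ∈ antidiagonal i, (V.coeff x.1 : PadicAlgCl p) * (W.coeff x.2 : PadicAlgCl p) := by
    push_cast
    rfl
  rw [e]
  refine MS.norm_sum_le' _ _ zero_le_one fun x _ => ?_
  rw [norm_mul]
  exact mul_le_one₀ (hV _) (norm_nonneg _) (hW _)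

theorem IB_C {c : F} (hc : ‖(c : PadicAlgCl p)‖ ≤ 1) : IB (C c) := fun i => by
  rw [coeff_C]
  split_ifs
  · exact hc
  · rw [ZeroMemClass.coe_zero, norm_zero]; exact zero_le_one

theorem IB_X : IB (X : F[X]) := fun i => by
  rw [coeff_X]
  split_ifs
  · rw [OneMemClass.coe_one, norm_one]
  · rw [ZeroMemClass.coe_zero, norm_zero]; exact zero_le_one

theorem IB_one : IB (1 : F[X]) := by
  rw [← C_1]
  exact IB_C (by rw [OneMemClass.coe_one, norm_one])

theorem IB.pow {V : F[X]} (hV : IB V) (n : ℕ) : IB (V ^ n) := by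
  induction n with
  | zero => rw [pow_zero]; exact IB_one
  | succ n ih => rw [pow_succ]; exact ih.mul hV

theorem IB.sum {ι : Type*} (s : Finset ι) (f : ι → F[X]) (h : ∀ i ∈ s, IB (f i)) :
    IB (∑ i ∈ s, f i) := by
  classical
  induction s using Finset.induction_on with
  | empty =>
    rw [Finset.sum_empty, ← C_0]
    exact IB_C (by rw [ZeroMemClass.coe_zero, norm_zero]; exact zero_le_one)
  | insert a s ha ih =>
    rw [Finset.sum_insert ha]
    exact (h a (mem_insert_self _ _)).add (ih fun i hi => h i (mem_insert_of_mem hi))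

theorem IB.taylor {V : F[X]} (hV : IB V) {r : F} (hr : ‖(r : PadicAlgCl p)‖ ≤ 1) :
    IB (taylor r V) := by
  rw [taylor_apply, comp_eq_sum_left, Polynomial.sum]
  refine IB.sum _ _ fun i _ => ?_
  exact (IB_C (hV i)).mul ((IB_X.add (IB_C hr)).pow i)

theorem aeval_taylor {V : F[X]} {r : F} {a : PadicAlgCl p} (hr : (r : PadicAlgCl p) = a)
    (x : PadicAlgCl p) : aeval (x - a) (taylor r V) = aeval x V := by
  rw [taylor_apply, aeval_comp]
  have e : aeval (x - a) (X + C r : F[X]) = x := by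
    rw [map_add, aeval_X, aeval_C]
    have h : algebraMap F (PadicAlgCl p) r = a := hr
    rw [h]
    exact sub_add_cancel x a
  rw [e]

end IB

/-! ### values -/

section val

variable {F : IntermediateField ℚ_[p] (PadicAlgCl p)} {δ : ℝ} {n : ℕ}

theorem terms (hδ0 : 0 < δ) (hδ1 : δ < 1)
    (hV : ∀ z ∈ F, z ≠ 0 → ∃ k : ℤ, ‖z‖ = δ ^ ((n : ℤ) * k)) {y : PadicAlgCl p} (hy : ‖y‖ = δ)
    {W : F[X]} (hW : W.natDegree < n) :
    (∀ i < n, ‖(W.coeff i : PadicAlgCl p)‖ * δ ^ i ≤ ‖aeval y W‖) ∧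
      (W ≠ 0 → ∃ i < n, (W.coeff i : PadicAlgCl p) ≠ 0 ∧
        ‖aeval y W‖ = ‖(W.coeff i : PadicAlgCl p)‖ * δ ^ i) := by
  classical
  have hev : aeval y W = ∑ i ∈ range n, (W.coeff i : PadicAlgCl p) * y ^ i := by
    rw [aeval_eq_sum_range' hW]
    exact Finset.sum_congr rfl fun i _ => by rw [Algebra.smul_def]; rfl
  have hterm : ∀ i, ‖(W.coeff i : PadicAlgCl p) * y ^ i‖ =
      ‖(W.coeff i : PadicAlgCl p)‖ * δ ^ i := fun i => by rw [norm_mul, norm_pow, hy]
  have hy0 : y ≠ 0 := by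
    rintro rfl
    rw [norm_zero] at hy
    exact hδ0.ne hy
  obtain ⟨h1, h2⟩ := ultra_sum (range n) (fun i => (W.coeff i : PadicAlgCl p) * y ^ i) (by
    intro i hi j hj hij hi0 hj0 heq
    rw [hterm, hterm] at heq
    have hi1 : (W.coeff i : PadicAlgCl p) ≠ 0 := left_ne_zero_of_mul hi0
    have hj1 : (W.coeff j : PadicAlgCl p) ≠ 0 := left_ne_zero_of_mul hj0
    obtain ⟨k, hk⟩ := hV _ (W.coeff i).2 hi1
    obtain ⟨l, hl⟩ := hV _ (W.coeff j).2 hj1
    rw [hk, hl, ← zpow_natCast, ← zpow_natCast, ← zpow_add₀ hδ0.ne', ← zpow_add₀ hδ0.ne'] at heq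
    have h3 := zpow_right_injective₀ hδ0 hδ1.ne heq
    rw [Finset.mem_range] at hi hj
    apply hij
    have h4 : ((i : ℤ) - j) = n * (l - k) := by
      have : (n : ℤ) * k + i = n * l + j := h3
      linarith [this, mul_sub (n : ℤ) l k]
    have h5 : (n : ℤ) ∣ (i : ℤ) - j := ⟨_, h4⟩
    have h6 := Int.eq_zero_of_abs_lt_dvd h5 (by
      rw [abs_lt]
      constructor <;> omega)
    omega)
  rw [← hev] at h1 h2
  refine ⟨fun i hi => ?_, fun hW0 => ?_⟩
  · rw [← hterm]
    exact h1 i (Finset.mem_range.2 hi)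
  · rcases h2 with h2 | ⟨i, hi, h3, h4⟩
    · exfalso
      apply hW0
      ext1 i
      by_cases hi : i < n
      · have h3 := h1 i (Finset.mem_range.2 hi)
        rw [h2, norm_zero] at h3
        have h4 := norm_le_zero_iff.1 h3
        rcases mul_eq_zero.1 h4 with h5 | h5
        · rw [coeff_zero]
          exact Subtype.ext h5
        · exact absurd h5 (pow_ne_zero _ hy0)
      · rw [coeff_zero, coeff_eq_zero_of_natDegree_lt (by omega)]
    · refine ⟨i, Finset.mem_range.1 hi, left_ne_zero_of_mul h3, ?_⟩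
      rw [h4, hterm]

/-- the values of a polynomial of degree `< n` at the points at distance `δ` from `a` -/
theorem value_eq (hδ0 : 0 < δ) (hδ1 : δ < 1)
    (hV : ∀ z ∈ F, z ≠ 0 → ∃ k : ℤ, ‖z‖ = δ ^ ((n : ℤ) * k)) {a : PadicAlgCl p} (ha : a ∈ F)
    {W : F[X]} (hW : W.natDegree < n) (hW0 : W ≠ 0) (hex : ∃ y : PadicAlgCl p, ‖y‖ = δ) :
    ∃ m : ℤ, ∀ x : PadicAlgCl p, ‖x - a‖ = δ → ‖aeval x W‖ = δ ^ m := by
  set a' : F := ⟨a, ha⟩ with ha'
  have hT : (taylor a' W).natDegree < n := by rw [natDegree_taylor]; exact hW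
  have hT0 : taylor a' W ≠ 0 := by
    intro h
    apply hW0
    exact (taylor_injective a') (by rw [h, map_zero])
  have key : ∀ x y : PadicAlgCl p, ‖x - a‖ = δ → ‖y - a‖ = δ → ‖aeval x W‖ ≤ ‖aeval y W‖ := by
    intro x y hx hy
    have h1 := (terms hδ0 hδ1 hV hx hT).2 hT0
    have h2 := (terms hδ0 hδ1 hV hy hT).1
    have e1 : aeval (x - a) (taylor a' W) = aeval x W := aeval_taylor (r := a') (a := a) rfl x
    have e2 : aeval (y - a) (taylor a' W) = aeval y W := aeval_taylor (r := a') (a := a) rfl y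
    rw [e1] at h1
    rw [e2] at h2
    obtain ⟨i, hi, -, h3⟩ := h1
    rw [h3]
    exact h2 i hi
  obtain ⟨y, hy⟩ := hex
  have hx : ‖(y + a) - a‖ = δ := by rw [add_sub_cancel_right]; exact hy
  have h1 := (terms hδ0 hδ1 hV hx hT).2 hT0
  have e1 : aeval ((y + a) - a) (taylor a' W) = aeval (y + a) W := aeval_taylor (r := a') (a := a) rfl (y + a)
  rw [e1] at h1
  obtain ⟨i, hi, h2, h3⟩ := h1
  obtain ⟨k, hk⟩ := hV _ ((taylor a' W).coeff i).2 h2
  refine ⟨(n : ℤ) * k + i, fun x hx' => ?_⟩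
  rw [zpow_add₀ hδ0.ne', zpow_natCast, ← hk, ← h3]
  exact le_antisymm (key _ _ hx' hx) (key _ _ hx hx')

/-- integral values imply integral coefficients -/
theorem integral_of_value (hδ0 : 0 < δ) (hδ1 : δ < 1)
    (hV : ∀ z ∈ F, z ≠ 0 → ∃ k : ℤ, ‖z‖ = δ ^ ((n : ℤ) * k)) {a : PadicAlgCl p} (ha : a ∈ F)
    (ha1 : ‖a‖ ≤ 1) {W : F[X]} (hW : W.natDegree < n) {x : PadicAlgCl p} (hx : ‖x - a‖ = δ)
    (h : ‖aeval x W‖ ≤ 1) : IB W := by
  set a' : F := ⟨a, ha⟩ with ha'
  have hT : (taylor a' W).natDegree < n := by rw [natDegree_taylor]; exact hW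
  have h1 := (terms hδ0 hδ1 hV hx hT).1
  have e1 : aeval (x - a) (taylor a' W) = aeval x W := aeval_taylor (r := a') (a := a) rfl x
  rw [e1] at h1
  have h2 : IB (taylor a' W) := by
    intro i
    by_cases hi : i < n
    · by_cases h0 : ((taylor a' W).coeff i : PadicAlgCl p) = 0
      · rw [h0, norm_zero]; exact zero_le_one
      obtain ⟨k, hk⟩ := hV _ ((taylor a' W).coeff i).2 h0
      have h3 := (h1 i hi).trans h
      rw [hk, ← zpow_natCast, ← zpow_add₀ hδ0.ne'] at h3
      have h4 : 0 ≤ (n : ℤ) * k + i := by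
        by_contra hcon
        push Not at hcon
        have h5 : (1 : ℝ) < δ ^ ((n : ℤ) * k + i) := one_lt_zpow_of_neg₀ hδ0 hδ1 hcon
        linarith
      have h5 : 0 ≤ k := by
        by_contra hcon
        push Not at hcon
        have h6 : (n : ℤ) * k ≤ n * (-1) := mul_le_mul_of_nonneg_left (by omega) (by positivity)
        omega
      rw [hk]
      have h6 : 0 ≤ (n : ℤ) * k := by positivity
      exact zpow_le_one₀ hδ0 hδ1.le h6
    · rw [coeff_eq_zero_of_natDegree_lt (by omega), ZeroMemClass.coe_zero, norm_zero]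
      exact zero_le_one
  have h3 : IB (taylor (-a') (taylor a' W)) := h2.taylor (by
    have : ((-a' : F) : PadicAlgCl p) = -a := rfl
    rw [this, norm_neg]
    exact ha1)
  rwa [taylor_taylor, neg_add_cancel, taylor_zero] at h3

end val

/-! ### denominators -/

theorem det_denom {d : ℕ} [NeZero d] {ψ : AddChar (ZMod d) (PadicAlgCl p)} (ho : Orth ψ)
    {c r g : ZMod d → PadicAlgCl p} (h : ∀ k, bk ψ g k = bk ψ r k * bk ψ c k)
    (hr : ∀ x, ‖r x‖ ≤ 1) (hg : ∀ x, ‖g x‖ ≤ 1) (J : Finset (ZMod d))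
    (π : Equiv.Perm (ZMod d)) : ‖(XM c J π).det‖ * ∏ k, ‖bk ψ r k‖ ≤ 1 := by
  set N : Matrix (ZMod d) (ZMod d) (PadicAlgCl p) :=
    Matrix.of fun i j => if j ∈ J then g (i - j) else r (i - π j) with hN
  have h1 : (FM ψ * N) = Matrix.diagonal (bk ψ r) * (FM ψ * XM c J π) := by
    ext k j
    rw [Matrix.diagonal_mul, FM_mul_XM]
    have key : ∀ (f : ZMod d → PadicAlgCl p) (y : ZMod d),
        ∑ l, ψ (k * l) * f (l - y) = bk ψ f k * ψ (k * y) := by
      intro f y
      unfold bk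
      rw [← Equiv.sum_comp (Equiv.addRight y), Finset.sum_mul]
      refine Finset.sum_congr rfl fun l _ => ?_
      simp only [Equiv.coe_addRight, add_sub_cancel_right, mul_add, AddChar.map_add_eq_mul]
      ring
    rw [Matrix.mul_apply]
    simp only [FM, hN, Matrix.of_apply]
    split_ifs with hj
    · rw [key, h k]; ring
    · rw [key]
  have h2 := congrArg Matrix.det h1
  rw [Matrix.det_mul, Matrix.det_mul, Matrix.det_mul, Matrix.det_diagonal] at h2
  have h3 : N.det = (∏ k, bk ψ r k) * (XM c J π).det := by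
    apply mul_left_cancel₀ (FM_det_ne ho)
    rw [h2]; ring
  have h4 := norm_det_le (hna p) N (fun _ => 1) (fun _ => zero_le_one) (fun i j => by
    simp only [hN, Matrix.of_apply]
    split_ifs
    · exact hg _
    · exact hr _)
  rw [Finset.prod_const_one, h3, norm_mul, norm_prod] at h4
  rw [mul_comm]
  exact h4

end CP
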