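import Pool.Agent.Lib_helper72.CP.CP4
import Pool.Agent.Lib_helper72.SP.GlueR

/-!
Local bounds for the minors.
-/

set_option autoImplicit false

namespace CP

open Finset Polynomial MS RR SP

variable {p : ℕ} [hp : Fact p.Prime]

section

variable {d : ℕ} [NeZero d] {F : IntermediateField ℚ_[p] (PadicAlgCl p)}

omit [NeZero d] in
theorem IB_zero : IB (0 : F[X]) := fun i => by
  rw [coeff_zero, ZeroMemClass.coe_zero, norm_zero]; exact zero_le_one

/-- the polynomial `R (θ X)` over `PadicAlgCl p` -/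
noncomputable def sc (θ : PadicAlgCl p) (R : F[X]) : (PadicAlgCl p)[X] :=
  (R.map (algebraMap F (PadicAlgCl p))).comp (C θ * X)

theorem sc_coeff {θ : PadicAlgCl p} (hθ1 : ‖θ‖ = 1) {R : F[X]} (hR : IB R) (n : ℕ) :
    ‖(sc θ R).coeff n‖ ≤ 1 := by
  unfold sc
  rw [comp_C_mul_X_coeff, coeff_map, norm_mul, norm_pow, hθ1, one_pow, mul_one]
  exact hR n

theorem bk_sc (ψ : AddChar (ZMod d) (PadicAlgCl p)) (θ : PadicAlgCl p) (R : F[X]) (k : ZMod d) :
    bk ψ (fold d (sc θ R)) k = aeval (ψ k * θ) R := by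
  rw [bk_fold]
  unfold sc
  rw [eval_comp, eval_mul, eval_C, eval_X, eval_map, ← aeval_def, mul_comm]

theorem norm_aa {θ : PadicAlgCl p} (hθ1 : ‖θ‖ = 1) {G : F[X]} (hG : IB G) (x : ZMod d) :
    ‖aa G θ x‖ ≤ 1 := by
  unfold aa
  rw [norm_mul, norm_pow, hθ1, one_pow, mul_one]
  exact hG _

/-- the function as a polynomial -/
theorem aa_pol {θ : PadicAlgCl p} {z : ZMod d → PadicAlgCl p} (hz : ∀ x, z x ∈ F) :
    aa (pol fun x => (⟨z x, hz x⟩ : F)) θ = fun x => z x * θ ^ x.val := by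
  funext x
  unfold aa
  rw [pol_coeff]
  rfl

theorem one_le_pmax {ι : Type*} [Fintype ι] (f : ι → ℝ) : 1 ≤ ∏ k, max 1 (f k) :=
  Finset.prod_induction _ (fun x => (1 : ℝ) ≤ x)
    (fun _ _ ha hb => one_le_mul_of_one_le_of_one_le ha hb) le_rfl fun _ _ => le_max_left _ _

/-- **The first case**: no loss. -/
theorem local_E {δ : ℝ} (hδ0 : 0 < δ) (hδ1 : δ < 1)
    (hV : ∀ z ∈ F, z ≠ 0 → ∃ k : ℤ, ‖z‖ = δ ^ ((d : ℤ) * k)) {a : PadicAlgCl p} (ha : a ∈ F)
    (ha1 : ‖a‖ ≤ 1) {θ : PadicAlgCl p} (hθ1 : ‖θ‖ = 1) (hθd : θ ^ d ∈ F)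
    {ψ : AddChar (ZMod d) (PadicAlgCl p)} (ho : Orth ψ) (hy : ∀ k, ‖ψ k * θ - a‖ = δ)
    {z : ZMod d → PadicAlgCl p} (hz : ∀ x, z x ∈ F) (J : Finset (ZMod d))
    (π : Equiv.Perm (ZMod d)) :
    ‖(XM (fun x => z x * θ ^ x.val) J π).det‖ ≤
      ∏ k, max 1 ‖bk ψ (fun x => z x * θ ^ x.val) k‖ := by
  have hd : 0 < d := NeZero.pos d
  set B : F[X] := pol fun x => (⟨z x, hz x⟩ : F) with hB
  have hBd : B.natDegree < d := pol_natDegree _
  rw [← aa_pol (θ := θ) hz, ← hB]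
  have hbk : ∀ k, bk ψ (aa B θ) k = aeval (ψ k * θ) B := fun k => bk_aa hBd θ ψ k
  by_cases hint : IB B
  · exact (non_one (hna p) _ _ _ (norm_aa hθ1 hint)).trans (one_le_pmax _)
  have hB0 : B ≠ 0 := by
    intro h0
    apply hint
    rw [h0]
    exact IB_zero
  obtain ⟨m, hm⟩ := value_eq hδ0 hδ1 hV ha hBd hB0 ⟨_, hy 0⟩
  have hmk : ∀ k, ‖bk ψ (aa B θ) k‖ = δ ^ m := fun k => by rw [hbk]; exact hm _ (hy k)
  have hmneg : m < 0 := by
    by_contra hcon
    push Not at hcon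
    apply hint
    refine integral_of_value hδ0 hδ1 hV ha ha1 hBd (hy 0) ?_
    rw [hm _ (hy 0)]
    exact zpow_le_one₀ hδ0 hδ1.le hcon
  set M : ℕ := (-m).toNat with hM
  have hMm : ((M : ℕ) : ℤ) = -m := Int.toNat_of_nonneg (by omega)
  obtain ⟨a', ha'⟩ : ∃ a' : F, (a' : PadicAlgCl p) = a := ⟨⟨a, ha⟩, rfl⟩
  obtain ⟨t', ht'⟩ : ∃ t' : F, (t' : PadicAlgCl p) = θ ^ d := ⟨⟨θ ^ d, hθd⟩, rfl⟩
  set R : F[X] := (X - C a') ^ M with hR
  have hRI : IB R := ((IB_X).sub (IB_C (by rw [ha']; exact ha1))).pow M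
  have hmon : (X ^ d - C t' : F[X]).Monic := monic_X_pow_sub_C _ hd.ne'
  set G : F[X] := (R * B) %ₘ (X ^ d - C t') with hG
  have hGd : G.natDegree < d := by
    have h1 : (X ^ d - C t' : F[X]) ≠ 1 := by
      intro h
      have h2 := congrArg natDegree h
      rw [natDegree_X_pow_sub_C, natDegree_one] at h2
      omega
    have h2 := natDegree_modByMonic_lt (R * B) hmon h1
    rwa [natDegree_X_pow_sub_C] at h2
  have hev : ∀ k, aeval (ψ k * θ) (X ^ d - C t' : F[X]) = 0 := by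
    intro k
    rw [map_sub, map_pow, aeval_X, aeval_C, mul_pow, char_pow, one_mul, sub_eq_zero, ← ht']
    rfl
  have hRk : ∀ k, aeval (ψ k * θ) R = (ψ k * θ - a) ^ M := by
    intro k
    rw [hR, map_pow, map_sub, aeval_X, aeval_C, ← ha']
    rfl
  have hGk : ∀ k, aeval (ψ k * θ) G = (ψ k * θ - a) ^ M * bk ψ (aa B θ) k := by
    intro k
    have h1 := congrArg (aeval (ψ k * θ)) (modByMonic_add_div (R * B) (X ^ d - C t'))
    rw [map_add, map_mul, hev, zero_mul, add_zero, map_mul, hRk, ← hbk] at h1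
    exact h1
  have hδm : δ ^ M * δ ^ m = 1 := by
    rw [← zpow_natCast, ← zpow_add₀ hδ0.ne', hMm, neg_add_cancel, zpow_zero]
  have hGI : IB G := by
    refine integral_of_value hδ0 hδ1 hV ha ha1 hGd (hy 0) ?_
    rw [hGk, norm_mul, norm_pow, hy, hmk, hδm]
  have h1 := det_denom ho (c := aa B θ) (r := fold d (sc θ R)) (g := aa G θ) (fun k => by
    rw [bk_sc, bk_aa hGd, hGk, hRk]) (fun x => norm_fold_le (sc_coeff hθ1 hRI) x)
    (norm_aa hθ1 hGI) J π
  have h2 : ∏ k : ZMod d, ‖bk ψ (fold d (sc θ R)) k‖ = (δ ^ M) ^ d := by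
    have h3 : ∀ k ∈ (univ : Finset (ZMod d)), ‖bk ψ (fold d (sc θ R)) k‖ = δ ^ M := fun k _ => by
      rw [bk_sc, hRk, norm_pow, hy]
    rw [Finset.prod_congr rfl h3, Finset.prod_const, Finset.card_univ, ZMod.card]
  rw [h2] at h1
  have h3 : ∏ k : ZMod d, max 1 ‖bk ψ (aa B θ) k‖ = (δ ^ m) ^ d := by
    have h4 : ∀ k ∈ (univ : Finset (ZMod d)), max 1 ‖bk ψ (aa B θ) k‖ = δ ^ m := fun k _ => by
      rw [hmk]
      exact max_eq_right (one_lt_zpow_of_neg₀ hδ0 hδ1 hmneg).le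
    rw [Finset.prod_congr rfl h4, Finset.prod_const, Finset.card_univ, ZMod.card]
  rw [h3]
  have h5 : (δ ^ m) ^ d * (δ ^ M) ^ d = 1 := by rw [← mul_pow, mul_comm, hδm, one_pow]
  have h6 : 0 < (δ ^ M) ^ d := by positivity
  by_contra hcon
  rw [not_le] at hcon
  have h7 := mul_lt_mul_of_pos_right hcon h6
  rw [h5] at h7
  linarith

end

section

variable {F : IntermediateField ℚ_[p] (PadicAlgCl p)}

/-- `(X ^ p - θ₀ ^ p) / (X - θ₀)` -/
noncomputable def psi (θ₀ : F) : F[X] := ∑ i ∈ range p, C (θ₀ ^ (p - 1 - i)) * X ^ i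

theorem psi_coeff (θ₀ : F) (n : ℕ) :
    (psi θ₀).coeff n = if n < p then θ₀ ^ (p - 1 - n) else 0 := by
  unfold psi
  rw [finsetSum_coeff]
  simp only [coeff_C_mul, coeff_X_pow]
  split_ifs with h
  · rw [Finset.sum_eq_single n]
    · rw [if_pos rfl, mul_one]
    · intro i _ hi
      rw [if_neg (Ne.symm hi), mul_zero]
    · intro h'
      exact absurd (Finset.mem_range.2 h) h'
  · refine Finset.sum_eq_zero fun i hi => ?_
    rw [Finset.mem_range] at hi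
    rw [if_neg (by omega), mul_zero]

theorem psi_natDegree (θ₀ : F) : (psi θ₀).natDegree = p - 1 := by
  have hpp := hp.out.pos
  refine natDegree_eq_of_le_of_coeff_ne_zero ?_ ?_
  · rw [natDegree_le_iff_coeff_eq_zero]
    intro n hn
    rw [psi_coeff, if_neg (by omega)]
  · rw [psi_coeff, if_pos (by omega), Nat.sub_self, pow_zero]
    exact one_ne_zero

theorem psi_monic (θ₀ : F) : (psi θ₀).Monic := by
  have hpp := hp.out.pos
  unfold Monic leadingCoeff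
  rw [psi_natDegree, psi_coeff, if_pos (by omega), Nat.sub_self, pow_zero]

theorem psi_IB {θ₀ : F} (h : ‖(θ₀ : PadicAlgCl p)‖ ≤ 1) : IB (psi θ₀) := by
  intro i
  rw [psi_coeff]
  split_ifs
  · have e : ((θ₀ ^ (p - 1 - i) : F) : PadicAlgCl p) = (θ₀ : PadicAlgCl p) ^ (p - 1 - i) := by
      push_cast; rfl
    rw [e, norm_pow]
    exact pow_le_one₀ (norm_nonneg _) h
  · rw [ZeroMemClass.coe_zero, norm_zero]; exact zero_le_one

theorem psi_aeval {θ₀ : F} {w : PadicAlgCl p} (hw : (θ₀ : PadicAlgCl p) = w)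
    (x : PadicAlgCl p) : aeval x (psi θ₀) = ∑ i ∈ range p, x ^ i * w ^ (p - 1 - i) := by
  unfold psi
  rw [map_sum]
  refine Finset.sum_congr rfl fun i _ => ?_
  rw [map_mul, aeval_C, map_pow, map_pow, aeval_X, mul_comm]
  congr 2

/-- **The second case**: a loss of `p ^ 2`. -/
theorem local_W (hF : UR F) (hp3 : 3 ≤ p) [NeZero p] {θ : PadicAlgCl p} (hθ1 : ‖θ‖ = 1)
    {ψ : AddChar (ZMod p) (PadicAlgCl p)} (ho : Orth ψ) {k₀ : ZMod p} (hk₀ : ψ k₀ * θ ∈ F)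
    {z : ZMod p → PadicAlgCl p} (hz : ∀ x, z x ∈ F) (J : Finset (ZMod p))
    (π : Equiv.Perm (ZMod p)) :
    ‖(XM (fun x => z x * θ ^ x.val) J π).det‖ ≤
      (p : ℝ) ^ 2 * ∏ k, max 1 ‖bk ψ (fun x => z x * θ ^ x.val) k‖ := by
  classical
  have hpp : 0 < p := hp.out.pos
  have hp0 : (0 : ℝ) < p := by exact_mod_cast hpp
  set δ := Real.exp (-pi0 p) with hδ
  have hδ0 : 0 < δ := Real.exp_pos _
  have hδ1 : δ < 1 := varpi_lt
  have hδp : δ ^ (p - 1) = (p : ℝ)⁻¹ := varpi_pow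
  have hV : ∀ z ∈ F, z ≠ 0 → ∃ k : ℤ, ‖z‖ = δ ^ (((p - 1 : ℕ) : ℤ) * k) := by
    intro z hz hz0
    obtain ⟨n, hn⟩ := hF.zpow hz hz0
    refine ⟨-n, ?_⟩
    rw [hn, zpow_mul, zpow_natCast, hδp, inv_zpow, _root_.zpow_neg, inv_inv]
  set w := ψ k₀ * θ with hw
  have hw1 : ‖w‖ = 1 := by rw [hw, norm_mul, norm_char, hθ1, one_mul]
  have hw0 : w ≠ 0 := by
    intro h
    rw [h, norm_zero] at hw1
    exact zero_ne_one hw1
  have hy : ∀ k, k ≠ k₀ → ‖ψ k * θ - w‖ = δ := by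
    intro k hk
    have e : ψ k * θ - w = (ψ (k - k₀) - 1) * w := by
      rw [hw, sub_mul, one_mul, ← mul_assoc, ← AddChar.map_add_eq_mul, sub_add_cancel]
    rw [e, norm_mul, hw1, mul_one]
    exact norm_zeta_sub_one (char_pow' ψ _) (char_ne_one ho (sub_ne_zero.2 hk))
  have hwp : ∀ k, (ψ k * θ) ^ p = w ^ p := by
    intro k
    rw [hw, mul_pow, mul_pow, char_pow', char_pow']
  set B : F[X] := pol fun x => (⟨z x, hz x⟩ : F) with hB
  have hBd : B.natDegree < p := pol_natDegree _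
  rw [← aa_pol (θ := θ) hz, ← hB]
  have hbk : ∀ k, bk ψ (aa B θ) k = aeval (ψ k * θ) B := fun k => bk_aa hBd θ ψ k
  set w' : F := ⟨w, hk₀⟩ with hw'
  set Ψ : F[X] := psi w' with hΨ
  have hΨI : IB Ψ := psi_IB (by exact hw1.le)
  have hΨ0 : ∀ k, k ≠ k₀ → aeval (ψ k * θ) Ψ = 0 := by
    intro k hk
    rw [hΨ, psi_aeval (w := w) rfl]
    have h1 := Commute.geom_sum₂_mul (Commute.all (ψ k * θ) w) p
    rw [hwp, sub_self] at h1
    refine (mul_eq_zero.1 h1).resolve_right fun h2 => ?_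
    have h3 := hy k hk
    rw [h2, norm_zero] at h3
    exact hδ0.ne h3
  have hΨw : aeval w Ψ = p * w ^ (p - 1) := by
    rw [hΨ, psi_aeval (w := w) rfl]
    have h1 : ∀ i ∈ range p, w ^ i * w ^ (p - 1 - i) = w ^ (p - 1) := by
      intro i hi
      rw [Finset.mem_range] at hi
      rw [← pow_add]
      congr 1
      omega
    rw [Finset.sum_congr rfl h1, Finset.sum_const, Finset.card_range, nsmul_eq_mul]
  -- the value at `k₀`
  set b₀ := bk ψ (aa B θ) k₀ with hb₀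
  have hb₀w : b₀ = aeval w B := by rw [hb₀, hbk, hw]
  have hb₀F : b₀ ∈ F := by
    rw [hb₀w]
    have : aeval w B = algebraMap F (PadicAlgCl p) (B.eval w') := by
      have h1 : w = algebraMap F (PadicAlgCl p) w' := rfl
      rw [h1, aeval_algebraMap_apply_eq_algebraMap_eval]
    rw [this]
    exact (B.eval w').2
  obtain ⟨N, hN1, hN2⟩ : ∃ N : ℕ, (p : ℝ)⁻¹ ^ N * ‖b₀‖ ≤ 1 ∧ (p : ℝ) ^ N ≤ max 1 ‖b₀‖ := by
    by_cases h0 : b₀ = 0
    · exact ⟨0, by rw [h0, norm_zero, mul_zero]; exact zero_le_one, by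
        rw [pow_zero]; exact le_max_left _ _⟩
    obtain ⟨n, hn⟩ := hF.zpow hb₀F h0
    have hp1 : (1 : ℝ) ≤ p := by exact_mod_cast hp.out.one_lt.le
    rcases le_or_gt n 0 with hn0 | hn0
    · refine ⟨0, ?_, by rw [pow_zero]; exact le_max_left _ _⟩
      rw [pow_zero, one_mul, hn]
      exact zpow_le_one_of_nonpos₀ hp1 hn0
    · have h1 : ((n.toNat : ℕ) : ℤ) = n := Int.toNat_of_nonneg hn0.le
      refine ⟨n.toNat, ?_, ?_⟩
      · rw [hn, inv_pow, ← zpow_natCast, h1, inv_mul_cancel₀ (zpow_ne_zero _ hp0.ne')]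
      · rw [hn, ← zpow_natCast, h1]
        exact le_max_right _ _
  -- the other values
  obtain ⟨M, hM1, hM2⟩ : ∃ M : ℕ, (∀ k, k ≠ k₀ → δ ^ M * ‖bk ψ (aa B θ) k‖ ≤ 1) ∧
      ∀ k, k ≠ k₀ → (δ ^ M)⁻¹ ≤ max 1 ‖bk ψ (aa B θ) k‖ := by
    set B₁ : F[X] := B %ₘ Ψ with hB₁
    have hval : ∀ k, k ≠ k₀ → aeval (ψ k * θ) B₁ = bk ψ (aa B θ) k := by
      intro k hk
      have h1 := congrArg (aeval (ψ k * θ)) (modByMonic_add_div B Ψ)
      rw [map_add, map_mul, hΨ0 k hk, zero_mul, add_zero, ← hbk] at h1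
      exact h1
    have hB₁d : B₁.natDegree < p - 1 := by
      have h1 : Ψ ≠ 1 := by
        intro h
        have h2 := psi_natDegree w'
        rw [← hΨ, h, natDegree_one] at h2
        omega
      have h2 := natDegree_modByMonic_lt B (psi_monic w') h1
      rwa [psi_natDegree] at h2
    by_cases hB₁0 : B₁ = 0
    · refine ⟨0, fun k hk => ?_, fun k hk => ?_⟩
      · rw [← hval k hk, hB₁0, map_zero, norm_zero, mul_zero]
        exact zero_le_one
      · rw [pow_zero, inv_one]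
        exact le_max_left _ _
    · have hk1 : k₀ + 1 ≠ k₀ := by
        intro h
        have h1 : (1 : ZMod p) = 0 := by
          have := congrArg (fun x => x - k₀) h
          simpa using this
        have : Fact (1 < p) := ⟨hp.out.one_lt⟩
        exact one_ne_zero h1
      obtain ⟨m, hm⟩ := value_eq hδ0 hδ1 hV hk₀ hB₁d hB₁0 ⟨_, hy _ hk1⟩
      have hmk : ∀ k, k ≠ k₀ → ‖bk ψ (aa B θ) k‖ = δ ^ m := fun k hk => by
        rw [← hval k hk]
        exact hm _ (hy k hk)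
      rcases le_or_gt 0 m with hm0 | hm0
      · refine ⟨0, fun k hk => ?_, fun k hk => ?_⟩
        · rw [pow_zero, one_mul, hmk k hk]
          exact zpow_le_one₀ hδ0 hδ1.le hm0
        · rw [pow_zero, inv_one]
          exact le_max_left _ _
      · have h1 : (((-m).toNat : ℕ) : ℤ) = -m := Int.toNat_of_nonneg (by omega)
        refine ⟨(-m).toNat, fun k hk => ?_, fun k hk => ?_⟩
        · rw [hmk k hk, ← zpow_natCast, h1, ← zpow_add₀ hδ0.ne', neg_add_cancel, zpow_zero]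
        · rw [hmk k hk, ← zpow_natCast, h1, _root_.zpow_neg, inv_inv]
          exact le_max_right _ _
  -- the polynomials
  set L : F[X] := X - C w' with hL
  have hLI : IB L := IB_X.sub (IB_C (by exact hw1.le))
  have hLk : ∀ x : PadicAlgCl p, aeval x L = x - w := by
    intro x
    rw [hL, map_sub, aeval_X, aeval_C]
    rfl
  have hmod : ∀ Q : F[X], (Q %ₘ Ψ).natDegree < p - 1 := by
    intro Q
    have h1 : Ψ ≠ 1 := by
      intro h
      have h2 := psi_natDegree w'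
      rw [← hΨ, h, natDegree_one] at h2
      omega
    have h2 := natDegree_modByMonic_lt Q (psi_monic w') h1
    rwa [psi_natDegree] at h2
  have hmodk : ∀ Q : F[X], ∀ k, k ≠ k₀ → aeval (ψ k * θ) (Q %ₘ Ψ) = aeval (ψ k * θ) Q := by
    intro Q k hk
    have h1 := congrArg (aeval (ψ k * θ)) (modByMonic_add_div Q Ψ)
    rw [map_add, map_mul, hΨ0 k hk, zero_mul, add_zero] at h1
    exact h1
  set G₁ : F[X] := (L ^ M * B) %ₘ Ψ with hG₁
  have hk1 : k₀ + 1 ≠ k₀ := by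
    intro h
    have h1 : (1 : ZMod p) = 0 := by
      have h1 := congrArg (fun x => x - k₀) h
      simp only [add_sub_cancel_left, sub_self] at h1
      exact h1
    have : Fact (1 < p) := ⟨hp.out.one_lt⟩
    exact one_ne_zero h1
  have hG₁I : IB G₁ := by
    refine integral_of_value hδ0 hδ1 hV hk₀ hw1.le (hmod _) (hy _ hk1) ?_
    rw [hmodk _ _ hk1, map_mul, map_pow, hLk, ← hbk, norm_mul, norm_pow, hy _ hk1]
    exact hM1 _ hk1
  set q' : F := (p : F) ^ N with hq'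
  have hq'c : (q' : PadicAlgCl p) = (p : PadicAlgCl p) ^ N := by
    rw [hq']; push_cast; rfl
  have hq'n : ‖(q' : PadicAlgCl p)‖ = (p : ℝ)⁻¹ ^ N := by rw [hq'c, norm_pow, norm_p]
  set b' : F := ⟨b₀, hb₀F⟩ with hb'
  set G : F[X] := C (q' * b') * Ψ + L * G₁ with hG
  have hGI : IB G := by
    refine ((IB_C ?_).mul hΨI).add (hLI.mul hG₁I)
    have e : ((q' * b' : F) : PadicAlgCl p) = (q' : PadicAlgCl p) * b₀ := rfl
    rw [e, norm_mul, hq'n]
    exact hN1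
  have hGd : G.natDegree < p := by
    have h1 : (C (q' * b') * Ψ).natDegree ≤ p - 1 := by
      refine (natDegree_C_mul_le _ _).trans ?_
      rw [psi_natDegree]
    have h2 : (L * G₁).natDegree ≤ p - 1 := by
      refine natDegree_mul_le.trans ?_
      have h3 : L.natDegree ≤ 1 := by rw [hL]; exact (natDegree_X_sub_C_le _)
      have h4 := hmod (L ^ M * B)
      rw [← hG₁] at h4
      omega
    have h3 := natDegree_add_le_of_degree_le h1 h2
    rw [← hG] at h3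
    omega
  set R : F[X] := C q' * Ψ + L ^ (M + 1) with hR
  have hRI : IB R := by
    refine ((IB_C ?_).mul hΨI).add (hLI.pow _)
    rw [hq'n]
    exact pow_le_one₀ pinv_pos.le pinv_lt_one.le
  have hR0 : aeval w R = q' * (p * w ^ (p - 1)) := by
    have e1 : aeval w (C q' : F[X]) = (q' : PadicAlgCl p) := by rw [aeval_C]; rfl
    rw [hR, map_add, map_mul, e1, hΨw, map_pow (aeval w) L, hLk, sub_self,
      zero_pow (Nat.succ_ne_zero M), add_zero]
  have hRk : ∀ k, k ≠ k₀ → aeval (ψ k * θ) R = (ψ k * θ - w) ^ (M + 1) := by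
    intro k hk
    rw [hR, map_add, map_mul, hΨ0 k hk, mul_zero, zero_add, map_pow, hLk]
  have hid : ∀ k, aeval (ψ k * θ) G = aeval (ψ k * θ) R * bk ψ (aa B θ) k := by
    intro k
    by_cases hk : k = k₀
    · have e : aeval w (C (q' * b') : F[X]) = (q' : PadicAlgCl p) * b₀ := by rw [aeval_C]; rfl
      rw [hk, ← hw, hR0, hG, map_add, map_mul (aeval w) _ Ψ, e, map_mul (aeval w) L, hΨw, hLk,
        sub_self, zero_mul, add_zero, ← hb₀]
      ring
    · rw [hRk k hk, hG, map_add, map_mul, hΨ0 k hk, mul_zero, zero_add, map_mul, hLk,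
        hmodk _ _ hk, map_mul, map_pow, hLk, ← hbk]
      ring
  have h1 := det_denom ho (c := aa B θ) (r := fold p (sc θ R)) (g := aa G θ) (fun k => by
    rw [bk_sc, bk_aa hGd, hid]) (fun x => norm_fold_le (sc_coeff hθ1 hRI) x)
    (norm_aa hθ1 hGI) J π
  have hcard : (univ.erase k₀ : Finset (ZMod p)).card = p - 1 := by
    rw [Finset.card_erase_of_mem (mem_univ _), Finset.card_univ, ZMod.card]
  have h2 : ∏ k : ZMod p, ‖bk ψ (fold p (sc θ R)) k‖ =
      ((p : ℝ)⁻¹ ^ N * (p : ℝ)⁻¹) * (δ ^ (M + 1)) ^ (p - 1) := by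
    rw [← Finset.mul_prod_erase univ _ (mem_univ k₀)]
    congr 1
    · rw [bk_sc, ← hw, hR0, norm_mul, norm_mul, norm_pow, hw1, one_pow, mul_one, norm_p, hq'n]
    · have h3 : ∀ k ∈ (univ.erase k₀ : Finset (ZMod p)),
          ‖bk ψ (fold p (sc θ R)) k‖ = δ ^ (M + 1) := by
        intro k hk
        have hk' : k ≠ k₀ := (Finset.mem_erase.1 hk).1
        rw [bk_sc, hRk k hk', norm_pow, hy k hk']
      rw [Finset.prod_congr rfl h3, Finset.prod_const, hcard]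
  rw [h2] at h1
  have h3 : (p : ℝ) ^ N * ((δ ^ M)⁻¹) ^ (p - 1) ≤ ∏ k : ZMod p, max 1 ‖bk ψ (aa B θ) k‖ := by
    rw [← Finset.mul_prod_erase univ _ (mem_univ k₀)]
    refine mul_le_mul hN2 ?_ (by positivity) (zero_le_one.trans (le_max_left _ _))
    have h4 : ((δ ^ M)⁻¹) ^ (p - 1) = ∏ _k ∈ (univ.erase k₀ : Finset (ZMod p)), (δ ^ M)⁻¹ := by
      rw [Finset.prod_const, hcard]
    rw [h4]
    refine Finset.prod_le_prod (fun _ _ => by positivity) fun k hk => ?_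
    exact hM2 k (Finset.mem_erase.1 hk).1
  have h4 : ((p : ℝ)⁻¹ ^ N * (p : ℝ)⁻¹) * (δ ^ (M + 1)) ^ (p - 1) *
      ((p : ℝ) ^ 2 * ((p : ℝ) ^ N * ((δ ^ M)⁻¹) ^ (p - 1))) = 1 := by
    have e1 : (δ ^ (M + 1)) ^ (p - 1) = (δ ^ M) ^ (p - 1) * (p : ℝ)⁻¹ := by
      rw [pow_succ, mul_pow, hδp]
    rw [e1, inv_pow, inv_pow]
    have : (0 : ℝ) < (δ ^ M) ^ (p - 1) := by positivity
    have : (0 : ℝ) < (p : ℝ) ^ N := by positivity
    field_simp
  set Dt := ‖(XM (aa B θ) J π).det‖ with hDt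
  set c₁ := ((p : ℝ)⁻¹ ^ N * (p : ℝ)⁻¹) * (δ ^ (M + 1)) ^ (p - 1) with hc₁
  set c₂ := (p : ℝ) ^ N * ((δ ^ M)⁻¹) ^ (p - 1) with hc₂
  have hc₂0 : 0 < (p : ℝ) ^ 2 * c₂ := by positivity
  calc Dt = (Dt * c₁) * ((p : ℝ) ^ 2 * c₂) := by rw [mul_assoc, h4, mul_one]
    _ ≤ 1 * ((p : ℝ) ^ 2 * c₂) := mul_le_mul_of_nonneg_right h1 hc₂0.le
    _ = (p : ℝ) ^ 2 * c₂ := one_mul _
    _ ≤ _ := mul_le_mul_of_nonneg_left h3 (by positivity)

end

end CP
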