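import Pool.Agent.Lib_helper72.CP.CP5

/-!
Pure extensions of large prime degree of a field which is unramified at this prime.
-/

set_option autoImplicit false

namespace CP

open Finset Polynomial MS RR SP

section local_

variable {p : ℕ} [hp : Fact p.Prime]

/-- **The local bound.** -/
theorem local_bound {U : IntermediateField ℚ_[p] (PadicAlgCl p)} (hU : UR U) (hp3 : 3 ≤ p)
    [NeZero p] {θ : PadicAlgCl p} (hθ1 : ‖θ‖ = 1) {s : ℕ} (hθ : θ ^ p ^ s ∈ U)
    {ψ : AddChar (ZMod p) (PadicAlgCl p)} (ho : Orth ψ) {z : ZMod p → PadicAlgCl p}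
    (hz : ∀ x, z x ∈ adj U (θ ^ p)) (J : Finset (ZMod p)) (π : Equiv.Perm (ZMod p)) :
    ‖(XM (fun x => z x * θ ^ x.val) J π).det‖ ≤
      (p : ℝ) ^ 2 * ∏ k, max 1 ‖bk ψ (fun x => z x * θ ^ x.val) k‖ := by
  have hp1 : (1 : ℝ) ≤ p := by exact_mod_cast hp.out.one_lt.le
  rcases dichotomy hU hp3 hθ1 hθ with ⟨ζ, hζ, hζU⟩ |
    ⟨a, haU, δ, n, ha1, hδ0, hδ1, hn, hyζ, hyT, hdeg, hδn⟩
  · -- the second case
    have hle : adj U (θ ^ p) ≤ U := by
      refine adj_le le_rfl ?_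
      have h1 : θ ^ p = (ζ * θ) ^ p := by rw [mul_pow, hζ, one_mul]
      rw [h1]
      exact pow_mem hζU p
    obtain ⟨i, -, hi⟩ := (prim ho).eq_pow_of_pow_eq_one hζ
    have hk₀ : ψ (i : ZMod p) = ζ := by
      rw [← hi, ← AddChar.map_nsmul_eq_pow, nsmul_eq_mul, mul_one]
    exact local_W hU hp3 hθ1 ho (k₀ := (i : ZMod p)) (by rw [hk₀]; exact hζU)
      (fun x => hle (hz x)) J π
  · -- the first case
    have hε0 : 0 < δ ^ p := by positivity
    have hε1 : δ ^ p < 1 := pow_lt_one₀ hδ0.le hδ1 hp.out.ne_zero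
    have hVU : ∀ z ∈ U, z ≠ 0 → ∃ k : ℤ, ‖z‖ = (δ ^ p) ^ ((n : ℤ) * k) := by
      intro z hz hz0
      obtain ⟨j, hj⟩ := hU.zpow hz hz0
      refine ⟨-j, ?_⟩
      rw [hj, zpow_mul, zpow_natCast, hδn, inv_zpow, _root_.zpow_neg, inv_inv]
    have hV : ∀ z ∈ adj U (θ ^ p), z ≠ 0 → ∃ k : ℤ, ‖z‖ = δ ^ ((p : ℤ) * k) := by
      intro z hz hz0
      obtain ⟨P, hPdeg, hPz⟩ := mem_adj_poly hz
      have hP0 : P ≠ 0 := by
        rintro rfl
        rw [map_zero] at hPz
        exact hz0 hPz.symm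
      obtain ⟨m, hm⟩ := value_eq hε0 hε1 hVU (pow_mem haU p) (hPdeg.trans_le hdeg) hP0
        ⟨θ ^ p - a ^ p, hyT⟩
      refine ⟨m, ?_⟩
      rw [← hPz, hm _ hyT, zpow_mul, zpow_natCast]
    have h1 := local_E (d := p) hδ0 hδ1 hV (le_adj _ _ haU) ha1 hθ1 (mem_adj_self _ _) ho
      (fun k => hyζ _ (char_pow' ψ k)) hz J π
    refine h1.trans ?_
    have h2 := one_le_pmax (fun k => ‖bk ψ (fun x => z x * θ ^ x.val) k‖)
    have h3 : (1 : ℝ) ≤ (p : ℝ) ^ 2 := one_le_pow₀ hp1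
    exact le_mul_of_one_le_left (by linarith) h3

end local_

section global_

universe u

variable {Ω : Type u} [Field Ω] [Algebra ℚ Ω] [Algebra.IsAlgebraic ℚ Ω]

theorem log_small {p : ℝ} (hp : 1024 ≤ p) : 2 * Real.log p / p ≤ 1 / 64 := by
  have h1 : Real.log p = Real.log 1024 + Real.log (p / 1024) := by
    rw [← Real.log_mul (by norm_num) (by positivity)]
    congr 1
    field_simp
  have h2 : Real.log (p / 1024) ≤ p / 1024 - 1 := Real.log_le_sub_one_of_pos (by positivity)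
  have h3 : Real.log 1024 = 10 * Real.log 2 := by
    have : (1024 : ℝ) = 2 ^ 10 := by norm_num
    rw [this, Real.log_pow]
    norm_num
  have h4 := Real.log_two_lt_d9
  rw [div_le_iff₀ (by linarith)]
  nlinarith

/-- **Pure extensions of prime degree.** -/
theorem thmP {p : ℕ} [hp : Fact p.Prime] (hp1024 : 1024 ≤ p) {K : IntermediateField ℚ Ω} {g : Ω}
    (hg : g ≠ 0) {t : K} (hm : minpoly K g = X ^ p - C t) [NeZero p] {ψ : AddChar (ZMod p) Ω}
    (ho : Orth ψ) (hloc : ∀ τ : Ω →+* PadicAlgCl p, ‖τ g‖ = 1 ∧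
      (∃ s : ℕ, (τ g) ^ p ^ s ∈ Unr p) ∧ ∀ x ∈ K, τ x ∈ adj (Unr p) ((τ g) ^ p))
    {β : Ω} (hβ : β ∈ IntermediateField.adjoin K {g}) (hβ0 : β ≠ 0) :
    (∃ (c : K) (j : ℕ), β = algebraMap K Ω c * g ^ j) ∨ 1 / 64 ≤ ht β := by
  have hpp : 0 < p := hp.out.pos
  have hpR : (0 : ℝ) < p := by exact_mod_cast hpp
  obtain ⟨B, hBd, hBβ⟩ := exists_pol hpp hm hβ
  have hB0 : B ≠ 0 := by
    rintro rfl
    rw [map_zero] at hBβ
    exact hβ0 hBβ.symm
  have hlogp : 0 ≤ Real.log p := Real.log_natCast_nonneg p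
  have hthm := thmG hg hm ho hBd hB0 (κ := 1) le_rfl
    (fun _ => Real.exp (2 * Real.log p / p))
    (fun _ => Real.one_le_exp (by positivity))
    (by
      intro l hl hld τ J π
      obtain rfl : l = p := (Nat.prime_dvd_prime_iff_eq hl.out hp.out).1 hld
      have ho' : Orth (((τ : Ω →+* PadicAlgCl l) : Ω →* PadicAlgCl l).compAddChar ψ) := ho.map τ
      have hbk := bk_map ψ τ (aa B g)
      obtain ⟨hτ1, ⟨s, hs⟩, hK⟩ := hloc τ
      have e : (fun x => τ (aa B g x)) =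
          fun x : ZMod l => τ (algebraMap K Ω (B.coeff x.val)) * (τ g) ^ x.val := by
        funext x
        unfold aa
        rw [map_mul, map_pow]
      have h1 := local_bound UR_unr (by omega) hτ1 hs ho'
        (z := fun x : ZMod l => τ (algebraMap K Ω (B.coeff x.val)))
        (fun x => hK _ (B.coeff x.val).2) J π
      rw [← e] at h1
      simp only [hbk] at h1
      have hE : Real.exp (2 * Real.log l / l) ^ l = (l : ℝ) ^ 2 := by
        rw [← Real.exp_nat_mul]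
        have e2 : (l : ℝ) * (2 * Real.log l / l) = ((2 : ℕ) : ℝ) * Real.log l := by
          push_cast
          field_simp
        rw [e2, Real.exp_nat_mul, Real.exp_log hpR]
      rw [pow_one, hE]
      exact h1)
  rw [hBβ] at hthm
  rcases hthm with h | h
  · exact Or.inl h
  right
  rw [hp.out.primeFactors, Finset.sum_singleton, Real.log_exp, Nat.cast_one, one_mul] at h
  have h1 := log_small (p := (p : ℝ)) (by exact_mod_cast hp1024)
  linarith

end global_

end CP
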