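import Pool.Agent.Lib_helper72.CP.CP6

/-!
The exceptional primes, and the minimal polynomials.
-/

set_option autoImplicit false

namespace CP

open Finset Polynomial MS RR SP IntermediateField

universe u

variable {Ω : Type u} [Field Ω] [Algebra ℚ Ω] [Algebra.IsAlgebraic ℚ Ω] [IsAlgClosed Ω]

theorem int_outside_set (T : Finset Ω) : ∃ C : ℕ, 0 < C ∧ ∀ (l : ℕ) [Fact l.Prime], ¬ l ∣ C →
    ∀ x ∈ T, ∀ τ : Ω →+* PadicAlgCl l, ‖τ x‖ ≤ 1 := by
  classical
  induction T using Finset.induction_on with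
  | empty => exact ⟨1, one_pos, fun l _ _ x hx => absurd hx (by simp)⟩
  | insert a T ha ih =>
    obtain ⟨C, hC, h⟩ := ih
    obtain ⟨C', hC', h'⟩ := int_outside a
    refine ⟨C * C', Nat.mul_pos hC hC', fun l hl hlC x hx τ => ?_⟩
    rcases Finset.mem_insert.1 hx with rfl | hx
    · exact h' l (fun h => hlC (dvd_mul_of_dvd_right h _)) τ
    · exact h l (fun h => hlC (dvd_mul_of_dvd_left h _)) x hx τ

/-- `α` is a unit with incongruent conjugates at `p` -/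
def Good (α : Ω) (p : ℕ) : Prop :=
  ∀ (_ : Fact p.Prime) (τ : Ω →+* PadicAlgCl p), Sep (τ α) ∧ ‖τ α‖ = 1

/-- almost all the primes are good -/
theorem exists_bad {α : Ω} (h0 : α ≠ 0) : ∃ C : ℕ, 0 < C ∧ ∀ p : ℕ, p.Prime → ¬ p ∣ C →
    Good α p := by
  classical
  have hint : IsIntegral ℚ α := Algebra.IsIntegral.isIntegral α
  set f : Polynomial Ω := (minpoly ℚ α).map (algebraMap ℚ Ω) with hf
  have hfm : f.Monic := (minpoly.monic hint).map _
  set R : Finset Ω := f.roots.toFinset with hR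
  obtain ⟨C, hC, h⟩ := int_outside_set ({α, α⁻¹} ∪ (R.image fun r => (r - α)⁻¹))
  refine ⟨C, hC, fun p hp hpC hpF τ => ?_⟩
  have hτα : ‖τ α‖ = 1 := by
    have h1 := h p hpC α (by simp) τ
    have h2 := h p hpC α⁻¹ (by simp) τ
    rw [map_inv₀, norm_inv] at h2
    have h3 : 0 < ‖τ α‖ := norm_pos_iff.2 ((map_ne_zero τ).2 h0)
    rw [inv_le_one₀ h3] at h2
    exact le_antisymm h1 h2
  refine ⟨⟨hτα.le, fun g hg => ?_⟩, hτα⟩
  -- `g (τ α)` is `τ r` for a root `r`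
  have hprod : f = (f.roots.map fun r => X - Polynomial.C r).prod := by
    have h1 := (IsAlgClosed.splits f).eq_prod_roots
    rw [hfm.leadingCoeff, C_1, one_mul] at h1
    exact h1
  have h1 : (f.map τ).eval (g (τ α)) = 0 := by
    have e1 : f.map τ = (minpoly ℚ α).map (algebraMap ℚ (PadicAlgCl p)) := by
      rw [hf, Polynomial.map_map]
      congr 1
      exact Subsingleton.elim _ _
    set τ' : Ω →+* PadicAlgCl p := ((g : PadicAlgCl p →ₐ[ℚ_[p]] PadicAlgCl p) :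
      PadicAlgCl p →+* PadicAlgCl p).comp τ with hτ'
    have e2 : g (τ α) = τ' α := rfl
    have e3 : algebraMap ℚ (PadicAlgCl p) = τ'.comp (algebraMap ℚ Ω) := Subsingleton.elim _ _
    rw [e1, e2, e3, eval_map, ← hom_eval₂]
    have e4 : eval₂ (algebraMap ℚ Ω) α (minpoly ℚ α) = 0 := minpoly.aeval ℚ α
    rw [e4, map_zero]
  obtain ⟨r, hr, hrg⟩ : ∃ r ∈ f.roots, g (τ α) = τ r := by
    rw [hprod, Polynomial.map_multiset_prod, eval_multiset_prod, Multiset.map_map,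
      Multiset.map_map, Multiset.prod_eq_zero_iff, Multiset.mem_map] at h1
    obtain ⟨r, hr, h2⟩ := h1
    refine ⟨r, hr, ?_⟩
    simp only [Function.comp_apply, Polynomial.map_sub, map_X, map_C, eval_sub, eval_X,
      eval_C] at h2
    exact sub_eq_zero.1 h2
  have hne : r - α ≠ 0 := by
    intro h2
    rw [sub_eq_zero] at h2
    rw [hrg, h2] at hg
    exact hg rfl
  have h2 := h p hpC ((r - α)⁻¹) (by
    rw [Finset.mem_union]
    right
    exact Finset.mem_image.2 ⟨r, by rw [hR, Multiset.mem_toFinset]; exact hr, rfl⟩) τ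
  rw [map_inv₀, norm_inv] at h2
  have h3 : 0 < ‖τ (r - α)‖ := norm_pos_iff.2 ((map_ne_zero τ).2 hne)
  rw [inv_le_one₀ h3, map_sub, ← hrg] at h2
  refine le_antisymm ?_ h2
  refine (norm_sub_le_max' _ _).trans (max_le ?_ hτα.le)
  rw [norm_gal]
  exact hτα.le

/-- `α` is a `p`-th power in `ℚ(μ_∞, α)` for finitely many `p` only -/
theorem exists_nonpower {α : Ω} (h0 : α ≠ 0) (htor : ∀ n : ℕ, 0 < n → α ^ n ≠ 1) :
    ∃ P₀ : ℕ, ∀ p : ℕ, p.Prime → P₀ ≤ p → ∀ c ∈ MSF α (∅ : Set ℕ), c ^ p ≠ α := by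
  classical
  obtain ⟨C, hC, hgood⟩ := exists_bad h0
  obtain ⟨q, hqC, hq⟩ := Nat.exists_infinite_primes (C + 1)
  have hqF : Fact q.Prime := ⟨hq⟩
  have hqC' : ¬ q ∣ C := fun h => absurd (Nat.le_of_dvd hC h) (by omega)
  have hG := hgood q hq hqC' hqF
  obtain ⟨τ⟩ : Nonempty (Ω →+* PadicAlgCl q) :=
    ⟨((IsAlgClosed.lift : Ω →ₐ[ℚ] PadicAlgCl q) : Ω →+* PadicAlgCl q)⟩
  have hτα : ‖τ α‖ = 1 := (hG τ).2
  have hq1 : (1 : ℝ) < q := by exact_mod_cast hq.one_lt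
  have hCZ : CharZero Ω := algebraRat.charZero Ω
  have hq0 : (q : Ω) ≠ 0 := by exact_mod_cast hq.ne_zero
  set α' : Ω := q * α with hα'
  have hα'0 : α' ≠ 0 := mul_ne_zero hq0 h0
  have hτα' : ‖τ α'‖ = (q : ℝ)⁻¹ := by
    rw [hα', map_mul, map_natCast, norm_mul, hτα, mul_one, norm_p]
  have htor' : ∀ n : ℕ, 0 < n → α' ^ n ≠ 1 := by
    intro n hn h
    have h1 := congrArg (fun x => ‖τ x‖) h
    simp only [map_pow, norm_pow, hτα', map_one, norm_one] at h1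
    have h2 := pow_lt_one₀ (pinv_pos (p := q)).le pinv_lt_one hn.ne'
    exact h2.ne h1
  obtain ⟨c', hc', hsmall⟩ := small_points hα'0 htor' ∅
  obtain ⟨P₀, hP₀⟩ := exists_nat_gt (ht α / c')
  refine ⟨P₀, fun p hp hpP c hc hcp => ?_⟩
  have hc0 : c ≠ 0 := by
    rintro rfl
    rw [zero_pow hp.ne_zero] at hcp
    exact h0 hcp.symm
  have hcM : c ∈ MSF α' ((∅ : Finset ℕ) : Set ℕ) := by
    have hle : MSF α (∅ : Set ℕ) ≤ MSF α' ((∅ : Finset ℕ) : Set ℕ) := by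
      unfold MSF
      refine adjoin_le_iff.2 ?_
      rintro x (hx | ⟨n, hn, hx⟩)
      · exact subset_adjoin _ _ (Or.inl hx)
      · have hn1 : n = 1 := by
          by_contra hne
          obtain ⟨r, hr, hrn⟩ := Nat.exists_prime_and_dvd hne
          exact (hn.2 r hr hrn).elim
        rw [hn1, pow_one] at hx
        have e : x = (q : Ω)⁻¹ * α' := by rw [hx, hα', inv_mul_cancel_left₀ hq0]
        rw [e]
        refine mul_mem (inv_mem (_root_.natCast_mem _ q)) (subset_adjoin _ _ (Or.inr ?_))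
        exact ⟨1, ⟨one_pos, fun r hr h => absurd (Nat.dvd_one.1 h) hr.one_lt.ne'⟩, pow_one _⟩
    exact hle hc
  have hcD : c ∉ DivG α' := by
    rintro ⟨-, n, hn, k, hk⟩
    have h1 : α ^ n = α' ^ (k * p) := by
      rw [← hcp, ← pow_mul, mul_comm p n, pow_mul, hk, ← zpow_natCast (α' ^ k) p, ← zpow_mul]
    have h2 := congrArg (fun x => ‖τ x‖) h1
    simp only [map_pow, map_zpow₀, norm_pow, norm_zpow, hτα, one_pow, hτα'] at h2
    have h3 : k * (p : ℤ) = 0 := by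
      rw [inv_zpow, eq_comm, inv_eq_one] at h2
      exact (zpow_eq_one_iff_right₀ (by linarith) hq1.ne').1 h2
    rw [h3, zpow_zero] at h1
    exact htor n hn h1
  have h1 := hsmall c hcM hc0 hcD
  have h2 := ht_pow c p
  rw [hcp] at h2
  rw [div_lt_iff₀ hc'] at hP₀
  have h3 : (P₀ : ℝ) * c' ≤ p * ht c :=
    mul_le_mul (by exact_mod_cast hpP) h1 hc'.le (by positivity)
  linarith

omit [Algebra.IsAlgebraic ℚ Ω] in
/-- from `M_S` to `ℚ(μ_∞, α)` -/
theorem power_down {α : Ω} (h0 : α ≠ 0) {S : Set ℕ} {p : ℕ} (hp : p.Prime) (hpS : p ∉ S) {c : Ω}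
    (hc : c ∈ MSF α S) (hcp : c ^ p = α) : ∃ c' ∈ MSF α (∅ : Set ℕ), c' ^ p = α := by
  obtain ⟨N, s, hN, hs, hcG⟩ := mem_MSF hc
  set M₀ := MSF α (∅ : Set ℕ) with hM₀
  obtain ⟨ρ, hρ⟩ := IsAlgClosed.exists_pow_nat_eq α hs.1
  have hρ0 : ρ ≠ 0 := by
    rintro rfl
    rw [zero_pow hs.1.ne'] at hρ
    exact h0 hρ.symm
  have hαM : α ∈ M₀ := alpha_mem_MSF
  have hun : ∀ (ζ : Ω) (n : ℕ), 0 < n → ζ ^ n = 1 → ζ ∈ M₀ := fun ζ n hn h => unity_mem_MSF hn h
  obtain ⟨d, hd, hdM, hmin, hds⟩ := exists_min_exp hρ0 hs.1 (F := M₀) (by rw [hρ]; exact hαM)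
  have hm := minpoly_pure' hun hρ0 hd hdM hmin
  have hpd : Nat.Coprime d p := by
    rw [Nat.coprime_comm, hp.coprime_iff_not_dvd]
    intro h
    exact hpS (hs.2 p hp (h.trans hds))
  have hcK : c ∈ M₀⟮ρ⟯ := by
    have hle : GF α N s ≤ (M₀⟮ρ⟯).restrictScalars ℚ := by
      refine GF_le (fun x hx => ?_) (fun x hx => ?_)
      · rw [IntermediateField.mem_restrictScalars]
        exact (M₀⟮ρ⟯).algebraMap_mem ⟨x, hun x N hN hx⟩
      · rw [IntermediateField.mem_restrictScalars]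
        have h1 : (x / ρ) ^ s = 1 := by rw [div_pow, hx, hρ, div_self h0]
        have h2 : x = (x / ρ) * ρ := by field_simp
        rw [h2]
        exact mul_mem ((M₀⟮ρ⟯).algebraMap_mem ⟨x / ρ, hun _ s hs.1 h1⟩)
          (mem_adjoin_simple_self M₀ ρ)
    exact hle hcG
  have hint : IsIntegral M₀ ρ := isInt_of_minpoly hd hm
  have : FiniteDimensional M₀ M₀⟮ρ⟯ := adjoin.finiteDimensional hint
  have hfr : Module.finrank M₀ M₀⟮ρ⟯ = d := by
    rw [adjoin.finrank hint, natDegree_of_minpoly hm]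
  set α₀ : M₀ := ⟨α, hαM⟩ with hα₀
  set ν : M₀ := Algebra.norm M₀ (⟨c, hcK⟩ : M₀⟮ρ⟯) with hν
  have hνp : ν ^ p = α₀ ^ d := by
    rw [hν, ← map_pow]
    have e : (⟨c, hcK⟩ : M₀⟮ρ⟯) ^ p = algebraMap M₀ M₀⟮ρ⟯ α₀ := by
      apply Subtype.ext
      exact hcp
    rw [e, Algebra.norm_algebraMap, hfr]
  have hbez := Nat.gcd_eq_gcd_ab d p
  rw [hpd.gcd_eq_one] at hbez
  set a := Nat.gcdA d p
  set b := Nat.gcdB d p
  have hα₀0 : α₀ ≠ 0 := by
    intro h
    exact h0 (congrArg Subtype.val h)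
  refine ⟨(ν ^ a * α₀ ^ b : M₀), (ν ^ a * α₀ ^ b).2, ?_⟩
  have h1 : (ν ^ a * α₀ ^ b) ^ p = α₀ := by
    calc (ν ^ a * α₀ ^ b) ^ p = (ν ^ p) ^ a * (α₀ ^ p) ^ b := by
          rw [mul_pow, ← zpow_natCast (ν ^ a), ← zpow_natCast (α₀ ^ b), ← zpow_natCast ν,
            ← zpow_natCast α₀, zpow_comm, zpow_comm α₀]
      _ = α₀ := by
          rw [hνp, ← zpow_natCast α₀ d, ← zpow_natCast α₀ p, ← zpow_mul, ← zpow_mul,
            ← zpow_add₀ hα₀0, ← hbez]
          simp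
  exact congrArg Subtype.val h1

omit [Algebra.IsAlgebraic ℚ Ω] in
/-- `X ^ p - γ ^ p` is the minimal polynomial -/
theorem minpoly_prime {α : Ω} (h0 : α ≠ 0) {S : Set ℕ} {p : ℕ} (hp : p.Prime)
    (hM : ∀ c ∈ MSF α S, c ^ p ≠ α) {γ : Ω} {e : ℕ} (he : 0 < e) (hpe : p ∣ e) (hγ : γ ^ e = α)
    {K : IntermediateField ℚ Ω} (hK : K ≤ adjG (MSF α S) (γ ^ p)) (hγK : γ ^ p ∈ K) :
    minpoly K γ = X ^ p - C (⟨γ ^ p, hγK⟩ : K) := by
  have hγ0 : γ ≠ 0 := by
    rintro rfl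
    rw [zero_pow he.ne'] at hγ
    exact h0 hγ.symm
  set M := MSF α S with hMdef
  have hun : ∀ (ζ : Ω) (n : ℕ), 0 < n → ζ ^ n = 1 → ζ ∈ M := fun ζ n hn h => unity_mem_MSF hn h
  symm
  refine minpoly.eq_of_irreducible_of_monic ?_ ?_ (monic_X_pow_sub_C _ hp.ne_zero)
  · refine X_pow_sub_C_irreducible_of_prime hp fun b hb => ?_
    have hb' : (b : Ω) ^ p = γ ^ p := congrArg (fun x : K => (x : Ω)) hb
    -- `γ ∈ M(γ ^ p)`
    have hbM := hK b.2
    have hb0 : (b : Ω) ≠ 0 := by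
      intro h
      rw [h, zero_pow hp.ne_zero] at hb'
      exact pow_ne_zero _ hγ0 hb'.symm
    have hγM : γ ∈ adjG M (γ ^ p) := by
      have h1 : (γ / b) ^ p = 1 := by
        rw [div_pow, hb', div_self (pow_ne_zero _ hγ0)]
      have h3 := mul_mem (le_adjG M (γ ^ p) (hun _ p hp.pos h1)) hbM
      rwa [div_mul_cancel₀ _ hb0] at h3
    -- exponents
    obtain ⟨d, hd, hdM, hmin, hde⟩ := exists_min_exp hγ0 he (F := M) (by
      rw [hγ]; exact alpha_mem_MSF)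
    have hm := minpoly_pure' hun hγ0 hd hdM hmin
    have hpd : p ∣ d := by
      by_contra hnd
      obtain ⟨e₁, rfl⟩ := hde
      have hpe₁ : p ∣ e₁ := by
        rcases (hp.dvd_mul).1 hpe with h | h
        · exact absurd h hnd
        · exact h
      obtain ⟨e₂, rfl⟩ := hpe₁
      refine hM ((γ ^ d) ^ e₂) (pow_mem hdM _) ?_
      rw [← hγ, ← pow_mul, ← pow_mul]
      congr 1
      ring
    obtain ⟨d', rfl⟩ := hpd
    have hd' : 0 < d' := Nat.pos_of_mul_pos_left hd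
    have hγp0 : γ ^ p ≠ 0 := pow_ne_zero _ hγ0
    obtain ⟨d₁, hd₁, hd₁M, hmin₁, hd₁d⟩ := exists_min_exp hγp0 hd' (F := M) (by
      rw [← pow_mul]; exact hdM)
    have hm₁ := minpoly_pure' hun hγp0 hd₁ hd₁M hmin₁
    have hγM' : γ ∈ M⟮γ ^ p⟯ := by
      have hle : adjG M (γ ^ p) ≤ (M⟮γ ^ p⟯).restrictScalars ℚ := by
        refine adjG_le ?_ ?_
        · intro x hx
          rw [IntermediateField.mem_restrictScalars]
          exact (M⟮γ ^ p⟯).algebraMap_mem ⟨x, hx⟩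
        · rw [IntermediateField.mem_restrictScalars]
          exact mem_adjoin_simple_self M _
      exact hle hγM
    obtain ⟨P, hPd, hP⟩ := exists_pol hd₁ hm₁ hγM'
    have h1 : aeval γ (X - expand M p P) = 0 := by
      rw [map_sub, aeval_X, expand_aeval, hP, sub_self]
    have h2 : (X - expand M p P : M[X]) ≠ 0 := by
      intro h
      have h3 : (X - expand M p P : M[X]).coeff 1 = 1 := by
        rw [coeff_sub, coeff_X_one, coeff_expand hp.pos, if_neg, sub_zero]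
        intro h4
        exact hp.one_lt.ne' (Nat.dvd_one.1 h4)
      rw [h, coeff_zero] at h3
      exact zero_ne_one h3
    refine aeval_ne_zero_of_natDegree_lt (g := γ) h2 ?_ h1
    rw [natDegree_of_minpoly hm]
    have h3 : d₁ ≤ d' := Nat.le_of_dvd hd' hd₁d
    have h4 : (expand M p P).natDegree ≤ p * (d' - 1) := by
      rw [natDegree_expand, mul_comm]
      exact Nat.mul_le_mul_left _ (by omega)
    refine (natDegree_sub_le _ _).trans_lt (max_lt ?_ ?_)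
    · rw [natDegree_X]
      exact lt_of_lt_of_le hp.one_lt (Nat.le_mul_of_pos_right p hd')
    · refine h4.trans_lt ?_
      exact Nat.mul_lt_mul_of_pos_left (by omega) hp.pos
  · rw [map_sub, map_pow, aeval_X, aeval_C, sub_eq_zero]
    rfl

end CP
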