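import Pool.Agent.Lib_helper72.CP.CP7

/-!
Small points of `ℚ(ζ, γ)`, `ζ ^ m = 1`, `γ ^ N = α`, where the primes dividing `m` and `N` lie in a
fixed finite set.
-/

set_option autoImplicit false

namespace CP

open Finset Polynomial MS RR SP IntermediateField

universe u

variable {Ω : Type u} [Field Ω] [Algebra ℚ Ω]

/-- the field generated by the roots of unity of order prime to `N` and the roots of `α` of
`S`-smooth order -/
noncomputable def KF (α : Ω) (S : Set ℕ) (N : ℕ) : IntermediateField ℚ Ω :=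
  adjoin ℚ ({x | ∃ n : ℕ, 0 < n ∧ n.Coprime N ∧ x ^ n = 1} ∪ {x | ∃ n : ℕ, Smooth S n ∧ x ^ n = α})

theorem KF_le {α : Ω} {S : Set ℕ} {N : ℕ} : KF α S N ≤ MSF α S := by
  unfold KF
  refine adjoin_le_iff.2 ?_
  rintro x (⟨n, hn, -, hx⟩ | ⟨n, hn, hx⟩)
  · exact unity_mem_MSF hn hx
  · exact root_mem_MSF hn hx

theorem unity_mem_KF {α ζ : Ω} {S : Set ℕ} {N n : ℕ} (hn : 0 < n) (hnN : n.Coprime N)
    (h : ζ ^ n = 1) : ζ ∈ KF α S N := subset_adjoin _ _ (Or.inl ⟨n, hn, hnN, h⟩)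

theorem root_mem_KF {α ρ : Ω} {S : Set ℕ} {N n : ℕ} (hn : Smooth S n) (h : ρ ^ n = α) :
    ρ ∈ KF α S N := subset_adjoin _ _ (Or.inr ⟨n, hn, h⟩)

theorem alpha_mem_KF {α : Ω} {S : Set ℕ} {N : ℕ} : α ∈ KF α S N :=
  root_mem_KF (smooth_one S) (pow_one α)

/-- the image in the maximal unramified extension -/
theorem KF_unr {α : Ω} {S : Set ℕ} {N p : ℕ} [hp : Fact p.Prime] (hpN : p ∣ N) (hpS : p ∉ S)
    (hG : Good α p) (τ : Ω →+* PadicAlgCl p) {x : Ω} (hx : x ∈ KF α S N) : τ x ∈ Unr p := by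
  have h : ∀ x ∈ KF α S N, τ x ∈ (Unr p).toSubfield := by
    refine adjoin_subfield τ ?_
    rintro x (⟨n, hn, hnN, hx⟩ | ⟨n, hn, hx⟩)
    · have hnp : n.Coprime p := Nat.Coprime.coprime_dvd_right hpN hnN
      exact (sep_unity hnp (θ := τ x) (by rw [← map_pow, hx, map_one])).mem
    · have hnp : n.Coprime p := by
        rw [Nat.coprime_comm, hp.out.coprime_iff_not_dvd]
        exact fun h => hpS (hn.2 p hp.out h)
      obtain ⟨h1, h2⟩ := hG hp τ
      exact (sep_root hnp h1 h2 (θ := τ x) (by rw [← map_pow, hx])).mem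
  exact h x hx

variable [Algebra.IsAlgebraic ℚ Ω] [IsAlgClosed Ω]

/-- the induction -/
theorem induct {α : Ω} (h0 : α ≠ 0) {S : Finset ℕ} (h2S : 2 ∈ S) {cS : ℝ}
    (hsmall : ∀ x ∈ MSF α (S : Set ℕ), x ≠ 0 → x ∉ DivG α → cS ≤ ht x) {N : ℕ}
    (hN : ∀ p : ℕ, p.Prime → p ∣ N → p ∉ S ∧ 1024 ≤ p ∧ Good α p ∧
      ∀ c ∈ MSF α (S : Set ℕ), c ^ p ≠ α) :
    ∀ e : ℕ, 0 < e → (∀ p : ℕ, p.Prime → p ∣ e → p ∣ N) → ∀ γ : Ω, γ ^ e = α →
      ∀ β ∈ adjG (KF α (S : Set ℕ) N) γ, β ≠ 0 → β ∉ DivG α → ∀ ε : ℝ, 0 < ε →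
        min (1 / 64) cS - ε ≤ ht β := by
  intro e
  induction e using Nat.strong_induction_on with
  | _ e ih =>
  intro he heN γ hγ β hβ hβ0 hβD ε hε
  set K' := KF α (S : Set ℕ) N with hK'
  by_cases he1 : e = 1
  · -- the base
    rw [he1, pow_one] at hγ
    have h1 : adjG K' γ ≤ MSF α (S : Set ℕ) := by
      refine adjG_le KF_le ?_
      rw [hγ]
      exact alpha_mem_MSF
    have h2 := hsmall β (h1 hβ) hβ0 hβD
    have h3 := min_le_right (1 / 64 : ℝ) cS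
    linarith
  obtain ⟨p, hp, hpe⟩ := Nat.exists_prime_and_dvd he1
  have hpN := heN p hp hpe
  obtain ⟨hpS, hp1024, hG, hnp⟩ := hN p hp hpN
  have hpF : Fact p.Prime := ⟨hp⟩
  have hpNZ : NeZero p := ⟨hp.ne_zero⟩
  have hγ0 : γ ≠ 0 := by
    rintro rfl
    rw [zero_pow he.ne'] at hγ
    exact h0 hγ.symm
  obtain ⟨e', he'⟩ := hpe
  have he'0 : 0 < e' := Nat.pos_of_ne_zero (by rintro rfl; omega)
  have he'e : e' < e := by
    rw [he']
    exact (Nat.lt_mul_iff_one_lt_left he'0).2 hp.one_lt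
  have hγ₁ : (γ ^ p) ^ e' = α := by rw [← pow_mul, ← he', hγ]
  set K := adjG K' (γ ^ p) with hK
  have hγK : γ ^ p ∈ K := mem_adjG_self _ _
  have hm := minpoly_prime h0 hp hnp he ⟨e', he'⟩ hγ (K := K)
    (adjG_mono KF_le (γ ^ p)) hγK
  obtain ⟨ψ, hψ⟩ := exists_orth (Ω := Ω) p
  have hβK : β ∈ IntermediateField.adjoin K {γ} := by
    have hle : adjG K' γ ≤ (IntermediateField.adjoin K {γ}).restrictScalars ℚ := by
      refine adjG_le ?_ ?_
      · intro x hx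
        rw [IntermediateField.mem_restrictScalars]
        exact (IntermediateField.adjoin K {γ}).algebraMap_mem ⟨x, le_adjG _ _ hx⟩
      · rw [IntermediateField.mem_restrictScalars]
        exact mem_adjoin_simple_self K _
    exact hle hβ
  have hthm := thmP hp1024 hγ0 hm hψ (by
    intro τ
    obtain ⟨hSep, hτα⟩ := hG hpF τ
    have hτγ : ‖τ γ‖ = 1 := norm_root he hγ hτα
    refine ⟨hτγ, ?_, ?_⟩
    · obtain ⟨s, e'', he''0, he''p, hes⟩ := split_p hp he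
      refine ⟨s, (sep_root he''p hSep hτα ?_).mem⟩
      rw [← pow_mul, ← hes, ← map_pow, hγ]
    · intro x hx
      have h1 : ∀ x ∈ K, τ x ∈ (adj (Unr p) ((τ γ) ^ p)).toSubfield := by
        refine adjG_subfield τ (fun x hx => ?_) ?_
        · exact le_adj _ _ (KF_unr hpN hpS hG τ hx)
        · rw [map_pow]
          exact mem_adj_self _ _
      exact h1 x hx) hβK hβ0
  rcases hthm with ⟨c, j, hc⟩ | h
  · -- a monomial
    have hα0 := ht_nonneg α
    obtain ⟨k, hk⟩ : ∃ k : ℕ, ht α / 2 ^ k ≤ ε / 2 := by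
      obtain ⟨k, hk⟩ := pow_unbounded_of_one_lt (2 * ht α / ε) (by norm_num : (1 : ℝ) < 2)
      refine ⟨k, ?_⟩
      rw [div_le_iff₀ (by positivity)]
      rw [div_lt_iff₀ hε] at hk
      linarith
    have hγD : γ ∈ DivG α := root_mem_DivG h0 he hγ
    have hw : γ ^ j ∈ DivG α := pow_mem_DivG hγD j
    obtain ⟨δ, hδ⟩ := IsAlgClosed.exists_pow_nat_eq α (n := 2 ^ k) (by positivity)
    have hδS : Smooth (S : Set ℕ) (2 ^ k) := by
      refine ⟨by positivity, fun q hq h => ?_⟩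
      rw [(Nat.prime_dvd_prime_iff_eq hq Nat.prime_two).1 (hq.dvd_of_dvd_pow h)]
      exact_mod_cast h2S
    have hδK : δ ∈ K := le_adjG _ _ (root_mem_KF hδS hδ)
    have hδD : δ ∈ DivG α := root_mem_DivG h0 (by positivity) hδ
    have hδ0 : δ ≠ 0 := hδD.1
    obtain ⟨e₀, he₀⟩ := ht_round h0 hw (M := 2 ^ k) (by positivity) hδ
    push_cast at he₀
    have hc' : β = (c : Ω) * γ ^ j := hc
    have hc0 : (c : Ω) ≠ 0 := by
      intro h
      rw [h, zero_mul] at hc'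
      exact hβ0 hc'
    have hx1 : (c : Ω) * δ ^ e₀ ∈ K := mul_mem c.2 (zpow_mem hδK e₀)
    have hx2 : (c : Ω) * δ ^ e₀ ≠ 0 := mul_ne_zero hc0 (zpow_ne_zero _ hδ0)
    have hx3 : (c : Ω) * δ ^ e₀ ∉ DivG α := by
      intro h
      apply hβD
      have h1 : β = ((c : Ω) * δ ^ e₀) * (γ ^ j * δ ^ (-e₀)) := by
        rw [hc']
        have : δ ^ e₀ * δ ^ (-e₀) = 1 := by rw [← zpow_add₀ hδ0, add_neg_cancel, zpow_zero]
        linear_combination (-((c : Ω) * γ ^ j)) * this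
      rw [h1]
      exact mul_mem_DivG h0 h (mul_mem_DivG h0 hw (zpow_mem_DivG hδD _))
    have h1 := ih e' he'e he'0 (fun q hq hqe => heN q hq (by
      rw [he']; exact dvd_mul_of_dvd_right hqe p)) (γ ^ p) hγ₁ _ hx1 hx2 hx3 (ε / 2) (by linarith)
    have h2 : (c : Ω) * δ ^ e₀ = β * (γ ^ j * δ ^ (-e₀))⁻¹ := by
      rw [hc', mul_inv, zpow_neg, inv_inv]
      have := pow_ne_zero j hγ0
      field_simp
    rw [h2] at h1
    have h3 := ht_mul_le β (γ ^ j * δ ^ (-e₀))⁻¹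
    rw [ht_inv] at h3
    linarith
  · have h3 := min_le_left (1 / 64 : ℝ) cS
    linarith

/-- **The theorem.** -/
theorem coprime_thm {α : Ω} (h0 : α ≠ 0) (htor : ∀ n : ℕ, 0 < n → α ^ n ≠ 1) (S₀ : Finset ℕ) :
    ∃ c : ℝ, 0 < c ∧ ∀ m N : ℕ, 0 < m → 0 < N → (∀ q : ℕ, q.Prime → q ∣ m → q ∣ N → q ∈ S₀) →
      ∀ ζ γ : Ω, ζ ^ m = 1 → γ ^ N = α → ∀ β ∈ IntermediateField.adjoin ℚ {ζ, γ}, β ≠ 0 →
        β ∉ DivG α → c ≤ ht β := by
  classical
  obtain ⟨C, hC, hgood⟩ := exists_bad h0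
  obtain ⟨P₀, hP₀⟩ := exists_nonpower h0 htor
  set S : Finset ℕ := S₀ ∪ Finset.range (1024 + P₀) ∪ C.primeFactors with hS
  have h2S : 2 ∈ S := by
    rw [hS, Finset.mem_union, Finset.mem_union, Finset.mem_range]
    left; right; omega
  obtain ⟨cS, hcS, hsmall⟩ := small_points h0 htor S
  have hmin : 0 < min (1 / 64 : ℝ) cS := lt_min (by norm_num) hcS
  refine ⟨min (1 / 64) cS / 2, by linarith, ?_⟩
  intro m N hm hN hmN ζ γ hζ hγ β hβ hβ0 hβD
  obtain ⟨a, b, hab, ha, hb⟩ := split (S : Set ℕ) N hN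
  have hco : Nat.Coprime a b :=
    Nat.coprime_of_dvd fun q hq h1 h2 => hb.2 q hq h2 (ha.2 q hq h1)
  have hmb : Nat.Coprime m b :=
    Nat.coprime_of_dvd fun q hq h1 h2 => hb.2 q hq h2 (by
      have h3 : q ∈ S₀ := hmN q hq h1 (by rw [hab]; exact dvd_mul_of_dvd_right h2 a)
      rw [Finset.mem_coe, hS, Finset.mem_union, Finset.mem_union]
      exact Or.inl (Or.inl h3))
  have hbp : ∀ p : ℕ, p.Prime → p ∣ b → p ∉ S ∧ 1024 ≤ p ∧ Good α p ∧
      ∀ c ∈ MSF α (S : Set ℕ), c ^ p ≠ α := by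
    intro p hp hpb
    have h1 : p ∉ S := fun h => hb.2 p hp hpb (Finset.mem_coe.2 h)
    have h2 := h1
    rw [hS, Finset.mem_union, Finset.mem_union, Finset.mem_range, not_or, not_or] at h2
    refine ⟨h1, by omega, hgood p hp fun h => h2.2 (Nat.mem_primeFactors.2 ⟨hp, h, hC.ne'⟩), ?_⟩
    intro c hc hcp
    obtain ⟨c', hc', hcp'⟩ := power_down h0 hp (fun h => h1 (Finset.mem_coe.1 h)) hc hcp
    exact hP₀ p hp (by omega) c' hc' hcp'
  have hγ₂ : (γ ^ a) ^ b = α := by rw [← pow_mul, ← hab, hγ]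
  have hβ' : β ∈ adjG (KF α (S : Set ℕ) b) (γ ^ a) := by
    have hle : IntermediateField.adjoin ℚ {ζ, γ} ≤ adjG (KF α (S : Set ℕ) b) (γ ^ a) := by
      refine adjoin_le_iff.2 ?_
      intro x hx
      rcases hx with hx | hx
      · rw [hx]
        exact le_adjG _ _ (unity_mem_KF hm hmb hζ)
      · rw [Set.mem_singleton_iff.1 hx]
        refine split_mem hco (mem_adjG_self _ _) (le_adjG _ _ (root_mem_KF ha ?_))
        rw [← pow_mul, mul_comm, ← hab, hγ]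
    exact hle hβ
  have h1 := induct h0 h2S hsmall hbp b hb.1 (fun _ _ h => h) (γ ^ a) hγ₂ β hβ' hβ0 hβD
    (min (1 / 64) cS / 2) (by linarith)
  linarith

end CP
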